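import Pool.Agent.D0H75.LS.Base

/-!
# The substitution of `g x` for `x` in G-systems
-/

set_option autoImplicit false

open PowerSeries

namespace Pool.Agent.D0H75.JS

open Pool.Agent.Y113
open Pool.Agent.D0H75.LS (rs coeff_rs)

/-- the substitution of `g x` for `x` in a polynomial -/
noncomputable def rp (g : ℕ) (P : Polynomial ℤ) : Polynomial ℤ := P.comp (Polynomial.C (g : ℤ) * Polynomial.X)

theorem coeff_rp (g l : ℕ) (P : Polynomial ℤ) : (rp g P).coeff l = P.coeff l * (g : ℤ) ^ l :=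
  Polynomial.comp_C_mul_X_coeff

theorem deg_rp (g : ℕ) (P : Polynomial ℤ) : (rp g P).natDegree ≤ P.natDegree := by
  unfold rp
  refine (Polynomial.natDegree_comp_le).trans ?_
  have h1 : (Polynomial.C (g : ℤ) * Polynomial.X).natDegree ≤ 1 :=
    (Polynomial.natDegree_C_mul_le _ _).trans Polynomial.natDegree_X_le
  calc P.natDegree * (Polynomial.C (g : ℤ) * Polynomial.X).natDegree ≤ P.natDegree * 1 := Nat.mul_le_mul_left _ h1
    _ = _ := mul_one _

theorem ps_rp (g : ℕ) (P : Polynomial ℤ) : ps (rp g P) = rs g (ps P) := by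
  ext m
  rw [coeff_rs]
  unfold ps
  rw [Polynomial.coeff_coe, Polynomial.coeff_coe, Polynomial.coeff_map, Polynomial.coeff_map, coeff_rp]
  simp only [eq_intCast, Int.cast_mul, Int.cast_pow, Int.cast_natCast]
  ring

theorem hd_rs (g s : ℕ) (f : ℚ⟦X⟧) : hd s (rs g f) = (g : ℚ⟦X⟧) ^ s * rs g (hd s f) := by
  ext m
  have h1 : ((g : ℚ⟦X⟧) ^ s) = PowerSeries.C ((g : ℚ) ^ s) := by
    rw [map_pow, map_natCast]
  rw [h1, coeff_C_mul, coeff_rs]
  unfold hd
  rw [coeff_mk, coeff_mk, coeff_rs, pow_add]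
  ring

theorem aeval_rp (g : ℕ) (P : Polynomial ℤ) (x : ℝ) : Polynomial.aeval x (rp g P) = Polynomial.aeval ((g : ℝ) * x) P := by
  unfold rp
  rw [Polynomial.aeval_comp]
  simp

/-- coefficients of a polynomial with bounded degree -/
theorem coeff_rp_le {g q : ℕ} {C : ℝ} (hC : 0 ≤ C) {P : Polynomial ℤ} (hd : P.natDegree ≤ q)
    (h : ∀ l, |((P.coeff l : ℤ) : ℝ)| ≤ C) (l : ℕ) : |(((rp g P).coeff l : ℤ) : ℝ)| ≤ ((g : ℝ) + 2) ^ q * C := by
  have hg : (0 : ℝ) ≤ g := by positivity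
  rw [coeff_rp]
  by_cases hl : l ≤ q
  · push_cast
    rw [abs_mul, abs_of_nonneg (pow_nonneg hg l : (0 : ℝ) ≤ (g : ℝ) ^ l), mul_comm]
    refine mul_le_mul ?_ (h l) (abs_nonneg _) (by positivity)
    calc (g : ℝ) ^ l ≤ ((g : ℝ) + 2) ^ l := pow_le_pow_left₀ hg (by linarith) _
      _ ≤ _ := pow_le_pow_right₀ (by linarith) hl
  · rw [Polynomial.coeff_eq_zero_of_natDegree_lt (by omega)]
    simp only [zero_mul, Int.cast_zero, abs_zero]
    positivity

/-- the substitution in a G-system -/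
theorem gsys_rs {ι : Type} [Fintype ι] {q : ℕ} {C : ℝ} {T : Polynomial ℤ} {y : ι → ℚ⟦X⟧} (h : GSys q C T y) (g : ℕ) :
    GSys q (((g : ℝ) + 2) ^ (q + 1) * C) (rp g T) (fun i => rs g (y i)) := by
  have hg : (0 : ℝ) ≤ g := by positivity
  have hg1 : (1 : ℝ) ≤ (g : ℝ) + 2 := by linarith
  have hC := h.one_le
  have hC0 : (0 : ℝ) ≤ C := by linarith
  have hgq : (1 : ℝ) ≤ ((g : ℝ) + 2) ^ (q + 1) := one_le_pow₀ hg1
  have hCC : C ≤ ((g : ℝ) + 2) ^ (q + 1) * C := le_mul_of_one_le_left hC0 hgq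
  have hpos : (0 : ℝ) ≤ ((g : ℝ) + 2) ^ (q + 1) * C := by positivity
  refine ⟨hC.trans hCC, (deg_rp g T).trans h.degT, fun l => ?_, fun i m => ?_, fun m => ?_, fun k => ?_⟩
  · refine (coeff_rp_le hC0 h.degT h.sizeT l).trans ?_
    exact mul_le_mul_of_nonneg_right (pow_le_pow_right₀ hg1 (Nat.le_succ q)) hC0
  · rw [coeff_rs]
    push_cast
    rw [abs_mul, abs_of_nonneg (pow_nonneg hg m : (0 : ℝ) ≤ (g : ℝ) ^ m), mul_pow]
    refine mul_le_mul ?_ (h.size i m) (abs_nonneg _) (by positivity)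
    calc (g : ℝ) ^ m ≤ ((g : ℝ) + 2) ^ m := pow_le_pow_left₀ hg (by linarith) _
      _ ≤ (((g : ℝ) + 2) ^ (q + 1)) ^ m := by
        refine pow_le_pow_left₀ (by positivity) ?_ _
        exact le_self_pow₀ hg1 (Nat.succ_ne_zero q)
      _ ≤ _ := pow_le_pow_right₀ hgq (Nat.le_succ m)
  · obtain ⟨d, hd0, hd, hd'⟩ := h.den m
    refine ⟨d, hd0, hd.trans (pow_le_pow_left₀ hC0 hCC _), fun i j hj => ?_⟩
    obtain ⟨a, ha⟩ := hd' i j hj
    refine ⟨(g : ℤ) ^ j * a, ?_⟩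
    rw [coeff_rs]
    push_cast
    rw [← ha]
    ring
  · obtain ⟨G, hG0, hG, hG'⟩ := h.der k
    refine ⟨G, hG0, hG.trans (pow_le_pow_left₀ hC0 hCC _), fun s hs => ?_⟩
    obtain ⟨M, h1, h2, h3⟩ := hG' s hs
    refine ⟨fun i j => Polynomial.C ((g : ℤ) ^ s) * rp g (M i j), fun i j => ?_, fun i j l => ?_, fun i => ?_⟩
    · refine (Polynomial.natDegree_C_mul_le _ _).trans ((deg_rp g _).trans (h1 i j))
    · rw [Polynomial.coeff_C_mul]
      push_cast
      rw [abs_mul, abs_of_nonneg (pow_nonneg hg s : (0 : ℝ) ≤ (g : ℝ) ^ s)]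
      have h4 := coeff_rp_le (g := g) (by positivity) (h1 i j) (h2 i j) l
      calc (g : ℝ) ^ s * |(((rp g (M i j)).coeff l : ℤ) : ℝ)| ≤
          ((g : ℝ) + 2) ^ s * (((g : ℝ) + 2) ^ (q * s) * C ^ (k + 1)) := by
            refine mul_le_mul (pow_le_pow_left₀ hg (by linarith) _) h4 (abs_nonneg _) (by positivity)
        _ = (((g : ℝ) + 2) ^ (q + 1)) ^ s * C ^ (k + 1) := by
            rw [← mul_assoc, ← pow_add, ← pow_mul]
            congr 2
            ring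
        _ ≤ (((g : ℝ) + 2) ^ (q + 1)) ^ (k + 1) * C ^ (k + 1) := by
            refine mul_le_mul_of_nonneg_right (pow_le_pow_right₀ hgq (by omega)) (by positivity)
        _ = _ := (mul_pow _ _ _).symm
    · have h5 := congrArg (rs g) (h3 i)
      rw [map_mul, map_mul, map_pow, map_natCast, map_sum] at h5
      rw [ps_rp, hd_rs]
      calc (G : ℚ⟦X⟧) * (rs g (ps T) ^ s * ((g : ℚ⟦X⟧) ^ s * rs g (hd s (y i)))) =
          (g : ℚ⟦X⟧) ^ s * ((G : ℚ⟦X⟧) * (rs g (ps T) ^ s * rs g (hd s (y i)))) := by ring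
        _ = _ := by
          rw [h5, Finset.mul_sum]
          refine Finset.sum_congr rfl fun j _ => ?_
          rw [map_mul, ps_mul, ps_C, ps_rp]
          push_cast
          ring

/-- a nonzero polynomial has no small positive roots -/
theorem small_root {T : Polynomial ℤ} (hT : T ≠ 0) : ∃ c : ℕ, ∀ x : ℝ, 0 < x → x * c < 1 → Polynomial.aeval x T ≠ 0 := by
  classical
  set P : Polynomial ℝ := T.map (Int.castRingHom ℝ) with hP
  have hP0 : P ≠ 0 := (Polynomial.map_ne_zero_iff (Int.cast_injective (α := ℝ))).2 hT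
  set R : Finset ℝ := P.roots.toFinset.filter fun r => 0 < r with hR
  obtain ⟨c, hc⟩ := exists_nat_gt (∑ r ∈ R, 1 / r)
  refine ⟨c, fun x hx hxc h0 => ?_⟩
  have h1 : x ∈ R := by
    rw [hR, Finset.mem_filter, Multiset.mem_toFinset, Polynomial.mem_roots hP0]
    refine ⟨?_, hx⟩
    show P.eval x = 0
    rw [← h0, hP, Polynomial.eval_map, Polynomial.aeval_def]
    rfl
  have h2 : 1 / x ≤ ∑ r ∈ R, 1 / r := by
    refine Finset.single_le_sum (f := fun r : ℝ => 1 / r) (fun r hr => ?_) h1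
    rw [hR, Finset.mem_filter] at hr
    have := hr.2
    positivity
  have h3 : 1 / x < c := h2.trans_lt hc
  rw [div_lt_iff₀ hx] at h3
  linarith

end Pool.Agent.D0H75.JS
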