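import Pool.Agent.D0H75.JS.Defs
import Pool.Agent.Y259.K.SB

/-!
# One function, coefficients analytic on the closed interval (after `Y259/K/SB`)
-/

set_option autoImplicit false

namespace Pool.Agent.D0H75.JS.SB

open Filter Topology
open Pool.Agent.Y113 Pool.Agent.Y37.GF Pool.Agent.Y120.J Pool.Agent.Y120.K
open Pool.Agent.Y259.K

theorem z1_pos (s : Bool) {g : ℕ} (hg : 0 < (g : ℝ) + Js s) : 0 < Pool.Agent.Y120.K.z1 s g := by
  unfold Pool.Agent.Y120.K.z1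
  exact one_div_pos.mpr hg

theorem t_sb (s : Bool) (hc : T_CUR s) (hu : T_U s) (hv : T_VAN s) : T_SB s := by
  intro g hg Δ c hca hnear
  have _ := hc
  obtain ⟨u1, u2, u3⟩ := hu g hg
  have hP : ∀ x ∈ Set.Ioo 0 (Pool.Agent.Y120.K.z1 s g), ∑ e, c e x * mv (ut s g x) e = 0 := by
    refine ident_left (f := fun x => ∑ e, c e x * mv (ut s g x) e) ?_ (z1_pos s hg) hnear
    intro x hx
    refine Finset.analyticAt_fun_sum _ fun e _ => ?_
    refine (hca e x ⟨hx.1.le, hx.2.le⟩).mul ?_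
    unfold mv
    exact Finset.analyticAt_fun_prod _ fun i _ => (u1 x ⟨hx.1.le, hx.2⟩ i).pow _
  obtain ⟨cA, hcA⟩ : ∃ cA : Ex Δ → An s g, ∀ e x, (cA e : ℝ → ℂ) x = (c e x : ℂ) :=
    ⟨fun e => ⟨fun x => (c e x : ℂ), fun x hx =>
      (Complex.ofRealCLM.analyticAt _).comp (hca e x hx)⟩, fun e x => rfl⟩
  obtain ⟨xA, hxA⟩ : ∃ xA : An s g, ∀ x, (xA : ℝ → ℂ) x = (x : ℂ) :=
    ⟨⟨fun x => (x : ℂ), fun x _ => Complex.ofRealCLM.analyticAt _⟩, fun x => rfl⟩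
  obtain ⟨hA, hhA⟩ : ∃ hA : An s g, ∀ x, (hA : ℝ → ℂ) x = 1 - (g : ℂ) * (x : ℂ) :=
    ⟨⟨fun x => 1 - (g : ℂ) * (x : ℂ), fun x _ => analyticAt_const.sub
      (analyticAt_const.mul (Complex.ofRealCLM.analyticAt _))⟩, fun x => rfl⟩
  refine core (A := An s g) (fun x => (ea s g x : An s g →+* ℂ))
    (Set.Ioo 0 (Pool.Agent.Y120.K.z1 s g)) c cA (fun e x => hcA e x) xA hA g (fun x => hxA x)
    (fun x => hhA x) (fun z => algebraMap ℂ (An s g) z) (fun x z => (ea s g x).commutes z)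
    ((si s : ℤ) : ℂ) tpi (xs s : ℂ) (si_sq s) tpi_ne (Jx s g) ?_ (cur s g) (ut s g) ?_ hP (hv g hg)
  · intro x hx
    refine ⟨hx.1.ne', (u3 x hx).2.1, ?_⟩
    unfold Jx
    push_cast
    rfl
  · intro x hx
    obtain ⟨a1, -, a2, a3, a4, a5⟩ := u3 x hx
    exact ⟨a1, a2, a3, a4, a5⟩

end Pool.Agent.D0H75.JS.SB
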