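import Pool.Agent.D0H75.JS.Defs
import Pool.Agent.Y25.K.Sp

/-!
# Analytic continuation around the elliptic point (after `Y25/K/Sp`)
-/

set_option autoImplicit false

namespace Pool.Agent.D0H75.JS

open Filter Topology
open Pool.Agent.TH21.MS (jj jj_an)
open Pool.Agent.Y120.J (si)
open Pool.Agent.Y120.K
open Pool.Agent.Y25.K

theorem half {s : Bool} (hr : T_RAY s) (hc : T_CUR s) {g : ℕ} (hg : 0 < (g : ℝ) + Js s)
    (Q : MvPolynomial (Fin 4) (An s g))
    (hQ : ∀ x ∈ Set.Ioo 0 (z1 s g),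
      MvPolynomial.eval₂ (ea s g x : An s g →+* ℂ) (cur s g x) Q = 0)
    (γ : ℂ → ℂ) (M : (Fin 4 → ℂ) → Fin 4 → ℂ) (hγc : ContinuousAt γ (ry s (Ys s)))
    (hγe : γ (ry s (Ys s)) = ry s (Ys s))
    (hM : ∀ (z : ℂ) (l : ℂ), 0 < z.im → jj (γ z) = jj z ∧
      ![l, γ z, deriv jj (γ z), deriv (deriv jj) (γ z)] =
        M ![l, z, deriv jj z, deriv (deriv jj) z])
    (hMa : ∀ x ∈ Set.Ioo 0 (z1 s g), ∀ i, AnalyticAt ℝ (fun x => M (cur s g x) i) x) :
    ∀ x ∈ Set.Ioo 0 (z1 s g),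
      MvPolynomial.eval₂ (ea s g x : An s g →+* ℂ) (M (cur s g x)) Q = 0 := by
  set e := ry s (Ys s) with he
  have heim : 0 < e.im := by
    rw [he, ry_im]
    exact Ys_pos s
  have hx1 : 0 < z1 s g := by
    unfold z1
    exact one_div_pos.mpr hg
  have hjj : AnalyticAt ℂ jj e := jj_an e heim
  have hxie : xi s g e = (z1 s g : ℂ) := by
    rw [he, xi_ray hr g le_rfl, hr.2.1]
    rfl
  have hden : (g : ℂ) + ((si s : ℤ) : ℂ) * jj e ≠ 0 := by
    intro h
    have h0 : xi s g e = 0 := by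
      unfold xi
      rw [h]
      simp
    rw [hxie] at h0
    exact hx1.ne' (by exact_mod_cast h0)
  have hxi : AnalyticAt ℂ (xi s g) e := by
    unfold xi
    exact analyticAt_const.div (analyticAt_const.add (analyticAt_const.mul hjj)) hden
  have hW : ∀ i, AnalyticAt ℂ (fun z => WW s g z i) e := by
    intro i
    fin_cases i
    · show AnalyticAt ℂ (fun z => -Complex.log (xi s g z)) e
      refine (hxi.clog ?_).neg
      rw [hxie]
      exact Complex.ofReal_mem_slitPlane.2 hx1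
    · exact analyticAt_id
    · exact hjj.deriv
    · exact hjj.deriv.deriv
  have hyx : ∀ y, Ys s < y → xi s g (ry s y) = ((1 / ((g : ℝ) + hh s y) : ℝ) : ℂ) ∧
      WW s g (ry s y) = cur s g (1 / ((g : ℝ) + hh s y)) := by
    intro y hy
    obtain ⟨h1, h2⟩ := (hc g hg).2 y hy
    refine ⟨xi_ray hr g hy.le, ?_⟩
    unfold WW cur
    rw [h2, xi_ray hr g hy.le, ← Complex.ofReal_log h1.1.le, ← Complex.ofReal_neg, ← Real.log_inv,
      inv_eq_one_div]
  have hry : Tendsto (ry s) (𝓝[>] Ys s) (𝓝[≠] e) := by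
    apply tendsto_nhdsWithin_of_tendsto_nhds_of_eventually_within
    · have h1 : Continuous (ry s) := by
        unfold ry
        fun_prop
      exact (h1.tendsto _).mono_left nhdsWithin_le_nhds
    · filter_upwards [self_mem_nhdsWithin] with y hy h
      have h1 : (ry s y).im = e.im := by rw [h]
      rw [ry_im, he, ry_im] at h1
      exact (ne_of_gt hy) h1
  have hfreq : ∃ᶠ z in 𝓝[≠] e, ∃ x : ℝ, xi s g z = x ∧
      sm Q.support (fun m => (Q.coeff m).1 x) (WW s g z) = 0 := by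
    refine hry.frequently ?_
    apply Eventually.frequently
    filter_upwards [self_mem_nhdsWithin] with y hy
    obtain ⟨h1, h2⟩ := hyx y hy
    refine ⟨_, h1, ?_⟩
    rw [h2, ← eval_sm]
    exact hQ _ ((hc g hg).2 y hy).1
  have hcore := core Q.support (fun m => (Q.coeff m).1)
    (fun m => (Q.coeff m).2 _ (Set.right_mem_Icc.2 hx1.le)) hxi hxie hW hfreq
  have hγt : Tendsto γ (𝓝 e) (𝓝 e) := by
    have h1 := hγc.tendsto
    rwa [hγe] at h1
  have h5 := hγt.eventually hcore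
  have h6 := (hry.mono_right nhdsWithin_le_nhds).eventually h5
  obtain ⟨u, hu, hsub⟩ := mem_nhdsGT_iff_exists_Ioo_subset.1 h6
  have h7 : ∀ y ∈ Set.Ioo (Ys s) u, MvPolynomial.eval₂
      (ea s g (1 / ((g : ℝ) + hh s y)) : An s g →+* ℂ)
      (M (cur s g (1 / ((g : ℝ) + hh s y)))) Q = 0 := by
    intro y hy
    obtain ⟨h1, h2⟩ := hyx y hy.1
    have hyim : 0 < (ry s y).im := by
      rw [ry_im]
      exact (Ys_pos s).trans hy.1
    obtain ⟨hj, hMz⟩ := hM (ry s y) (-Complex.log (xi s g (ry s y))) hyim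
    have hxiγ : xi s g (γ (ry s y)) = xi s g (ry s y) := by
      unfold xi
      rw [hj]
    have h8 := hsub hy _ (hxiγ.trans h1)
    have h9 : WW s g (γ (ry s y)) = M (cur s g (1 / ((g : ℝ) + hh s y))) := by
      rw [← h2]
      unfold WW
      rw [hxiγ]
      exact hMz
    rw [h9] at h8
    rw [eval_sm]
    exact h8
  have hu' : Ys s < u := hu
  set y0 := (Ys s + u) / 2 with hy0d
  have hy0 : y0 ∈ Set.Ioo (Ys s) u := ⟨by linarith, by linarith⟩
  obtain ⟨hx0, hYx0⟩ := (hc g hg).2 y0 hy0.1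
  set x0 := 1 / ((g : ℝ) + hh s y0) with hx0d
  have hcont : ContinuousAt (Yx s g) x0 := ((hc g hg).1 x0 hx0).2.2.continuousAt
  have h10 : ∀ᶠ x in 𝓝 x0, MvPolynomial.eval₂ (ea s g x : An s g →+* ℂ) (M (cur s g x)) Q = 0 := by
    have h11 : ∀ᶠ x in 𝓝 x0, Yx s g x ∈ Set.Ioo (Ys s) u :=
      hcont.tendsto (by
        rw [hYx0]
        exact Ioo_mem_nhds hy0.1 hy0.2)
    filter_upwards [h11, Ioo_mem_nhds hx0.1 hx0.2] with x hx hx'
    have h12 := ((hc g hg).1 x hx').2.1
    have h13 := h7 _ hx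
    have h14 : 1 / ((g : ℝ) + hh s (Yx s g x)) = x := by
      rw [h12, add_sub_cancel, one_div_one_div]
    rwa [h14] at h13
  have hG : AnalyticOnNhd ℝ (fun x => MvPolynomial.eval₂ (ea s g x : An s g →+* ℂ)
      (M (cur s g x)) Q) (Set.Ioo 0 (z1 s g)) := by
    intro x hx
    have h11 : (fun x => MvPolynomial.eval₂ (ea s g x : An s g →+* ℂ) (M (cur s g x)) Q) =
        fun x => sm Q.support (fun m => (Q.coeff m).1 x) (M (cur s g x)) :=
      funext fun x => eval_sm s g Q x _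
    rw [h11]
    unfold sm
    refine Finset.analyticAt_fun_sum _ fun m _ => ?_
    refine AnalyticAt.mul ((Q.coeff m).2 x ⟨hx.1.le, hx.2.le⟩) ?_
    exact Finset.analyticAt_fun_prod _ fun i _ => (hMa x hx i).pow _
  exact fun x hx => hG.eqOn_zero_of_preconnected_of_eventuallyEq_zero isPreconnected_Ioo hx0 h10 hx

theorem cur_an {s : Bool} (hc : T_CUR s) {g : ℕ} (hg : 0 < (g : ℝ) + Js s) {x : ℝ}
    (hx : x ∈ Set.Ioo 0 (z1 s g)) : ∀ i, AnalyticAt ℝ (fun x => cur s g x i) x := by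
  obtain ⟨h1, _, h3⟩ := (hc g hg).1 x hx
  have hY : AnalyticAt ℝ (fun x => ((Yx s g x : ℝ) : ℂ)) x :=
    (Complex.ofRealCLM.analyticAt _).comp h3
  have hR : AnalyticAt ℝ (fun x => ry s (Yx s g x)) x := by
    unfold ry
    exact analyticAt_const.add (hY.mul analyticAt_const)
  have him : 0 < (ry s (Yx s g x)).im := by
    rw [ry_im]
    exact (Ys_pos s).trans h1
  have hj := jj_an _ him
  intro i
  fin_cases i
  · show AnalyticAt ℝ (fun x => ((Real.log (1 / x) : ℝ) : ℂ)) x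
    refine (Complex.ofRealCLM.analyticAt _).comp ?_
    refine AnalyticAt.log (analyticAt_const.div analyticAt_id hx.1.ne') ?_
    exact one_div_pos.2 hx.1
  · exact hR
  · show AnalyticAt ℝ (fun x => deriv jj (ry s (Yx s g x))) x
    exact AnalyticAt.comp (f := fun x => ry s (Yx s g x)) (x := x)
      (AnalyticAt.restrictScalars (𝕜 := ℝ) hj.deriv) hR
  · show AnalyticAt ℝ (fun x => deriv (deriv jj) (ry s (Yx s g x))) x
    exact AnalyticAt.comp (f := fun x => ry s (Yx s g x)) (x := x)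
      (AnalyticAt.restrictScalars (𝕜 := ℝ) hj.deriv.deriv) hR

theorem cur_im {s : Bool} (hc : T_CUR s) {g : ℕ} (hg : 0 < (g : ℝ) + Js s) {x : ℝ}
    (hx : x ∈ Set.Ioo 0 (z1 s g)) : 0 < (cur s g x 1).im := by
  obtain ⟨h1, _, _⟩ := (hc g hg).1 x hx
  show 0 < (ry s (Yx s g x)).im
  rw [ry_im]
  exact (Ys_pos s).trans h1

theorem mo_an {s : Bool} (hc : T_CUR s) {g : ℕ} (hg : 0 < (g : ℝ) + Js s) {x : ℝ}
    (hx : x ∈ Set.Ioo 0 (z1 s g)) (a : ℂ) : ∀ i, AnalyticAt ℝ (fun x => mo a (cur s g x) i) x := by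
  have h := cur_an hc hg hx
  have hne : cur s g x 1 ≠ 0 := by
    intro h0
    have := cur_im hc hg hx
    rw [h0] at this
    simp at this
  intro i
  fin_cases i
  · exact h 0
  · show AnalyticAt ℝ (fun x => a - 1 / cur s g x 1) x
    exact analyticAt_const.sub (analyticAt_const.div (h 1) hne)
  · show AnalyticAt ℝ (fun x => cur s g x 1 ^ 2 * cur s g x 2) x
    exact ((h 1).pow 2).mul (h 2)
  · show AnalyticAt ℝ (fun x => cur s g x 1 ^ 4 * cur s g x 3 +
      2 * cur s g x 1 ^ 3 * cur s g x 2) x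
    exact (((h 1).pow 4).mul (h 3)).add ((analyticAt_const.mul ((h 1).pow 3)).mul (h 2))

theorem mo'_an {s : Bool} (hc : T_CUR s) {g : ℕ} (hg : 0 < (g : ℝ) + Js s) {x : ℝ}
    (hx : x ∈ Set.Ioo 0 (z1 s g)) (a : ℂ) (ha : a.im = 0) :
    ∀ i, AnalyticAt ℝ (fun x => mo' a (cur s g x) i) x := by
  have h := cur_an hc hg hx
  have hne : a - cur s g x 1 ≠ 0 := by
    intro h0
    have h1 := cur_im hc hg hx
    have h2 : (a - cur s g x 1).im = 0 := by
      rw [h0]
      rfl
    rw [Complex.sub_im, ha] at h2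
    linarith
  have h1 : AnalyticAt ℝ (fun x => a - cur s g x 1) x := analyticAt_const.sub (h 1)
  intro i
  fin_cases i
  · exact h 0
  · show AnalyticAt ℝ (fun x => 1 / (a - cur s g x 1)) x
    exact analyticAt_const.div h1 hne
  · show AnalyticAt ℝ (fun x => (a - cur s g x 1) ^ 2 * cur s g x 2) x
    exact (h1.pow 2).mul (h 2)
  · show AnalyticAt ℝ (fun x => (a - cur s g x 1) ^ 4 * cur s g x 3 -
      2 * (a - cur s g x 1) ^ 3 * cur s g x 2) x
    exact ((h1.pow 4).mul (h 3)).sub ((analyticAt_const.mul (h1.pow 3)).mul (h 2))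

/-- Job K-SP. -/
theorem t_sp (s : Bool) (hr : T_RAY s) (hc : T_CUR s) : T_SP s := by
  intro g hg Q hQ x hx
  have hne := ee_ne s
  refine ⟨half hr hc hg Q hQ (fun z => am s - 1 / z) (mo (am s)) ?_ (ee1 s) (mob1 s)
      (fun x hx => mo_an hc hg hx _) x hx,
    half hr hc hg Q hQ (fun z => 1 / (am s - z)) (mo' (am s)) ?_ (ee2 s) (mob2 s)
      (fun x hx => mo'_an hc hg hx _ (am_im s)) x hx⟩
  · exact continuousAt_const.sub (continuousAt_const.div continuousAt_id hne)
  · refine continuousAt_const.div (continuousAt_const.sub continuousAt_id) ?_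
    intro h
    have h2 := ee2 s
    rw [h] at h2
    simp at h2
    exact hne h2.symm

end Pool.Agent.D0H75.JS
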