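import Pool.Agent.D0H75.JS.UU
import Pool.Agent.Y239.K.U

/-!
# The four functions on the interval, second part (after `Y239/K/U`)
-/

set_option autoImplicit false

namespace Pool.Agent.D0H75.JS.UU

open Filter Topology Set PowerSeries
open Pool.Agent.Y120.K Pool.Agent.Y120.J Pool.Agent.Y113
open Pool.Agent.Y120.GH (sf cx_sf_cv ou_shift ou_ev)
open Pool.Agent.TH21.MS (jj jj_an)
open Pool.Agent.Y37.GF (E SR)
open Pool.Agent.Y239.K.UU

theorem small (s : Bool) (hr : T_RAY s) (hc : T_CUR s) (ha : T_ANC) (hsd : T_SD) (ho : T_ODE)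
    {g : ℕ} (hg : 0 < (g : ℝ) + Js s) :
    ∀ᶠ x in 𝓝[>] (0 : ℝ), ∀ i, uu s g x i = E (fJ s g i) x := by
  obtain ⟨Y0, hY0, hanc⟩ := ha
  obtain ⟨C, hC, hb⟩ := bound hsd s
  -- the value of the first series is positive near zero
  have hSR : SR (1 / (C + 1)) (hS s 0) := by
    have : Cv (C + 1) (hS s 0) := by
      refine Cv.of_bound (A := C) (B := C) (by linarith) (by linarith) (by linarith) fun m => ?_
      rw [← pow_succ']
      exact hb 0 m
    exact this
  have hcont : ContinuousAt (E (hS s 0)) 0 :=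
    (Pool.Agent.Y37.GF.an_E (by positivity) hSR).continuousAt
  have hpos0 : ∀ᶠ w in 𝓝 (0 : ℝ), 0 < E (hS s 0) w := by
    have h1 : E (hS s 0) 0 = 1 := by rw [E_zero_arg, coeff0]; norm_num
    exact hcont.eventually (lt_mem_nhds (by rw [h1]; norm_num))
  have htend : Tendsto (fun x : ℝ => 1 / (1 / x - g)) (𝓝[>] (0 : ℝ)) (𝓝 0) := by
    have h1 : Tendsto (fun x : ℝ => 1 / x - g) (𝓝[>] (0 : ℝ)) atTop := by
      have h2 : Tendsto (fun x : ℝ => x⁻¹) (𝓝[>] (0 : ℝ)) atTop := tendsto_inv_nhdsGT_zero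
      have h3 : Tendsto (fun x : ℝ => x⁻¹ + (-(g : ℝ))) (𝓝[>] (0 : ℝ)) atTop :=
        tendsto_atTop_add_const_right _ _ h2
      refine h3.congr fun x => ?_
      rw [one_div]
      ring
    have h4 := tendsto_inv_atTop_zero.comp h1
    refine h4.congr fun x => ?_
    simp
  have hpos := htend.eventually hpos0
  -- the bound for `x`
  set B : ℝ := max ((g : ℝ) + C) (max ((g : ℝ) + 8) (max ((g : ℝ) + Js s)
    ((g : ℝ) + hh s (max (Ys s) Y0)))) with hB
  have hB1 : (g : ℝ) + C ≤ B := le_max_left _ _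
  have hB2 : (g : ℝ) + 8 ≤ B := (le_max_left _ _).trans (le_max_right _ _)
  have hB3 : (g : ℝ) + Js s ≤ B :=
    (le_max_left _ _).trans ((le_max_right _ _).trans (le_max_right _ _))
  have hB4 : (g : ℝ) + hh s (max (Ys s) Y0) ≤ B :=
    (le_max_right _ _).trans ((le_max_right _ _).trans (le_max_right _ _))
  have hB0 : 0 < B := by linarith
  have hnear : Ioo 0 (1 / B) ∈ 𝓝[>] (0 : ℝ) := Ioo_mem_nhdsGT (by positivity)
  filter_upwards [hnear, hpos] with x hx hpx
  have hx0 : 0 < x := hx.1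
  have hxB : B < 1 / x := by
    have := hx.2
    rw [lt_div_iff₀ hB0] at this
    rw [lt_div_iff₀ hx0, mul_comm]
    exact this
  have hJs := Js_nonneg s
  have hxz : x ∈ Ioo 0 (z1 s g) := by
    refine ⟨hx0, ?_⟩
    unfold z1
    rw [lt_div_iff₀ hg]
    have h1 : B * x < 1 := by
      have := hx.2
      rw [lt_div_iff₀ hB0] at this
      linarith [mul_comm B x]
    nlinarith
  have hx8 : x ≤ 1 / ((g : ℝ) + 8) := by
    rw [le_div_iff₀ (by positivity)]
    have h1 : x * B < 1 := by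
      have := hx.2
      rwa [lt_div_iff₀ hB0] at this
    nlinarith
  obtain ⟨-, e0, e1, e2, e3⟩ := E_fJ s hC hb g hx0 (hB1.trans_lt hxB) hx8
  obtain ⟨c1, c2, -⟩ := (hc g hg).1 x hxz
  obtain ⟨v1, -, -, -⟩ := vals hr hc hg hxz
  obtain ⟨f1, f2⟩ := Fv_sq hr hc hg hxz
  have hw0 : 0 < 1 / x - g := hJs.trans_lt (inv_gt hg hxz)
  set y := Yx s g x with hy
  set w := 1 / x - g with hw
  -- the point is high
  have hyY : Y0 ≤ y := by
    by_contra hlt
    push Not at hlt
    have h1 : hh s y ≤ hh s (max (Ys s) Y0) :=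
      hr.2.2.1.monotoneOn c1.le (le_max_left (Ys s) Y0) (hlt.le.trans (le_max_right _ _))
    rw [c2] at h1
    linarith
  obtain ⟨a1, a2, a3, a4, a5, a6⟩ := hanc (ry s y) (by rw [ry_im]; exact hyY)
  have hjj : jj (ry s y) = Jx s g x := by
    rw [hr.1 y c1.le, c2]
    rfl
  have hinv : 1 / jj (ry s y) = ((si s : ℤ) : ℂ) * ((1 / w : ℝ) : ℂ) := by
    rw [hjj]
    unfold Jx
    have hsi := si_ne s
    have hsq := si_sqC s
    have hwc : (w : ℂ) ≠ 0 := by exact_mod_cast hw0.ne'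
    rw [← hw]
    push_cast
    field_simp
    linear_combination (-1 : ℂ) * hsq
  have j0 : hJ 0 = Pool.Agent.Y120.J.FF := rfl
  have j1 : hJ 1 = Pool.Agent.Y120.J.GG := rfl
  have j2 : hJ 2 = Pool.Agent.Y120.J.F1 := rfl
  rw [hinv, ← j0] at a4
  rw [hinv, ← j0, ← j2] at a5
  rw [hinv, ← j0, ← j1] at a6
  rw [evc_eq] at a4
  rw [evc_eq, evc_eq] at a5 a6
  set Φ := E (hS s 0) (1 / w) with hΦ
  set Γ := E (hS s 1) (1 / w) with hΓ
  set Φ1 := E (hS s 2) (1 / w) with hΦ1
  set Γ1 := E (hS s 3) (1 / w) with hΓ1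
  have hc2 : cur s g x 2 = deriv jj (ry s y) := rfl
  have hc3 : cur s g x 3 = deriv (deriv jj) (ry s y) := rfl
  have ht := tpi_ne
  -- the first function
  have hF : Fv s g x = Φ := by
    have h1 : ((Fv s g x : ℝ) : ℂ) ^ 2 = ((Φ : ℝ) : ℂ) ^ 2 := by
      rw [f2, hc2, a4, hjj]
      field_simp
    have h2 : Fv s g x ^ 2 = Φ ^ 2 := by exact_mod_cast h1
    exact (pow_left_inj₀ f1.le hpx.le (by norm_num)).1 h2
  have hΦ0 : Φ ≠ 0 := hpx.ne'
  -- the second function
  have hF1 : F1v s g x = Φ1 := by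
    unfold F1v
    have h1 : cur s g x 3 / (tpi ^ 2 * Jx s g x) = ((Φ ^ 4 - 2 * Φ ^ 3 * Φ1 : ℝ) : ℂ) := by
      rw [hc3, a5, hjj]
      push_cast
      field_simp
    rw [h1, Complex.ofReal_re, hF]
    field_simp
    ring
  -- the third function
  have hlog : -(2 * Real.pi * y) - Γ / Φ = Real.log (1 / w) := by
    have h1 : tpi * ry s y - (Γ : ℂ) / (Φ : ℂ) =
        tpi * (xs s : ℂ) + ((-(2 * Real.pi * y) - Γ / Φ : ℝ) : ℂ) := by
      unfold ry tpi
      push_cast
      linear_combination (2 * (Real.pi : ℂ) * (y : ℂ)) * Complex.I_sq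
    rw [h1, Complex.exp_add, exp_xs] at a6
    have h2 := mul_left_cancel₀ (si_ne s) a6
    rw [← Complex.ofReal_exp] at h2
    have h3 : Real.exp (-(2 * Real.pi * y) - Γ / Φ) = 1 / w := by exact_mod_cast h2
    rw [← h3, Real.log_exp]
  have hgx : 0 < 1 - g * x := by
    have h1 : w * x = 1 - g * x := by
      rw [hw]
      field_simp
    rw [← h1]
    positivity
  have hlw : Real.log (1 / w) = Real.log x - Real.log (1 - g * x) := by
    rw [← Real.log_div hx0.ne' hgx.ne']
    congr 1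
    rw [hw]
    field_simp
  have hG : Gv s g x = Γ - Φ * Real.log (1 - g * x) := by
    unfold Gv
    rw [hF, one_div, Real.log_inv, ← hy]
    have h1 : -(2 * Real.pi * y) = Real.log x - Real.log (1 - g * x) + Γ / Φ := by
      rw [← hlw, ← hlog]
      ring
    have h2 : -Real.log x - 2 * Real.pi * y = -Real.log (1 - g * x) + Γ / Φ := by linarith
    rw [h2]
    field_simp
    ring
  -- the relation
  have hrel : Φ * Γ1 - Φ1 * Γ = 1 := by
    have hCw : C < w := by
      have := hB1.trans_lt hxB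
      rw [hw]
      linarith
    have hcv : ∀ j, Cv w (hS s j) := fun j => by
      refine Cv.of_bound (A := C) (B := C) hw0 (by linarith) hCw fun m => ?_
      rw [← pow_succ']
      exact hb j m
    have hsr : ∀ j, SR (1 / w) (hS s j) := fun j => hcv j
    have habs : |1 / w| ≤ 1 / w := by rw [abs_of_pos (by positivity)]
    have h1 := congrArg (fun f => E f (1 / w)) (rel ho s)
    have hm1 : SR (1 / w) (hS s 0 * hS s 3) := SR.mul (by positivity) (hsr 0) (hsr 3)
    have hm2 : SR (1 / w) (hS s 2 * hS s 1) := SR.mul (by positivity) (hsr 2) (hsr 1)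
    rw [Pool.Agent.Y37.GF.E_sub hm1 hm2 habs, Pool.Agent.Y37.GF.E_mul (hsr 0) (hsr 3) habs,
      Pool.Agent.Y37.GF.E_mul (hsr 2) (hsr 1) habs, Pool.Agent.Y37.GF.E_one] at h1
    exact h1
  intro i
  fin_cases i
  · change Fv s g x = E (fJ s g 0) x
    rw [e0, hF]
  · change F1v s g x = E (fJ s g 1) x
    rw [e1, hF1]
  · change -Gv s g x = E (fJ s g 2) x
    rw [e2, hG]
  · change -((1 + F1v s g x * Gv s g x) / Fv s g x) = E (fJ s g 3) x
    rw [e3, hG, hF, hF1]
    congr 1
    field_simp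
    linear_combination (-1 : ℝ) * hrel

/-- K-U -/
theorem t_u (s : Bool) (hr : T_RAY s) (hc : T_CUR s) (ha : T_ANC) (hsd : T_SD) (ho : T_ODE) :
    T_U s := by
  intro g hg
  have hsm := small s hr hc ha hsd ho hg
  have hev : ∀ᶠ x in 𝓝 (0 : ℝ), ∀ i, ut s g x i = E (fJ s g i) x := by
    rw [← nhdsLE_sup_nhdsGT, Filter.eventually_sup]
    constructor
    · filter_upwards [self_mem_nhdsWithin] with x hx i
      unfold ut
      rw [if_neg (not_lt.2 hx)]
    · filter_upwards [hsm, self_mem_nhdsWithin] with x hx hx0 i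
      have hx0' : 0 < x := hx0
      unfold ut
      rw [if_pos hx0']
      exact hx i
  refine ⟨fun x hx i => ?_, hev, fun x hx => ?_⟩
  · rcases hx.1.eq_or_lt with h0 | h0
    · -- at zero
      rw [← h0]
      obtain ⟨C, hC, hb⟩ := bound hsd s
      have hC0 : (0 : ℝ) < max ((g : ℝ) + C + 1) ((g : ℝ) + 8) :=
        lt_of_lt_of_le (by positivity) (le_max_right _ _)
      set r := 1 / max ((g : ℝ) + C + 1) ((g : ℝ) + 8) with hr0
      have hrp : 0 < r := by positivity
      have h1 : 1 / r = max ((g : ℝ) + C + 1) ((g : ℝ) + 8) := by rw [hr0, one_div_one_div]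
      have h2 : (g : ℝ) + C < 1 / r := by
        rw [h1]
        exact lt_of_lt_of_le (by linarith) (le_max_left _ _)
      have h3 : r ≤ 1 / ((g : ℝ) + 8) := by
        rw [hr0]
        exact one_div_le_one_div_of_le (by positivity) (le_max_right _ _)
      have h4 := (E_fJ s hC hb g hrp h2 h3).1 i
      refine (Pool.Agent.Y37.GF.an_E hrp h4).congr ?_
      filter_upwards [hev] with z hz
      exact (hz i).symm
    · refine (an_uu hr hc hg ⟨h0, hx.2⟩ i).congr ?_
      filter_upwards [Ioi_mem_nhds h0] with z hz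
      have hz0 : 0 < z := hz
      unfold ut
      rw [if_pos hz0]
  · have hut : ut s g x = uu s g x := by
      unfold ut
      rw [if_pos hx.1]
    rw [hut]
    obtain ⟨v1, v2, v3, v4⟩ := vals hr hc hg hx
    obtain ⟨f1, f2⟩ := Fv_sq hr hc hg hx
    have ht := tpi_ne
    have u0 : uu s g x 0 = Fv s g x := rfl
    have u1 : uu s g x 1 = F1v s g x := rfl
    have u2 : uu s g x 2 = -Gv s g x := rfl
    have u3 : uu s g x 3 = -((1 + F1v s g x * Gv s g x) / Fv s g x) := rfl
    have hfne : Fv s g x ≠ 0 := f1.ne'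
    have hfc : ((Fv s g x : ℝ) : ℂ) ≠ 0 := by exact_mod_cast hfne
    rw [u0, u1, u2, u3]
    refine ⟨f1, v1, ?_, ?_, ?_, ?_⟩
    · rw [f2]
      field_simp
    · have h1 : (F1v s g x : ℝ) = (Fv s g x ^ 4 -
          (cur s g x 3 / (tpi ^ 2 * Jx s g x)).re) / (2 * Fv s g x ^ 3) := rfl
      have h2 : Fv s g x ^ 4 - 2 * Fv s g x ^ 3 * F1v s g x =
          (cur s g x 3 / (tpi ^ 2 * Jx s g x)).re := by
        rw [h1]
        field_simp
        ring
      have h3 : cur s g x 3 / (tpi ^ 2 * Jx s g x) =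
          ((Fv s g x ^ 4 - 2 * Fv s g x ^ 3 * F1v s g x : ℝ) : ℂ) := by
        rw [h2, v4, Complex.ofReal_re]
      rw [div_eq_iff (mul_ne_zero (pow_ne_zero _ ht) v1)] at h3
      rw [h3]
      push_cast
      ring
    · have c0 : cur s g x 0 = ((Real.log (1 / x) : ℝ) : ℂ) := rfl
      have c1 : cur s g x 1 = ry s (Yx s g x) := rfl
      have h1 : Gv s g x = (Real.log (1 / x) - 2 * Real.pi * Yx s g x) * Fv s g x := rfl
      rw [c0, c1, h1]
      unfold ry tpi
      push_cast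
      linear_combination (2 * (Real.pi : ℂ) * ((Yx s g x : ℝ) : ℂ) * ((Fv s g x : ℝ) : ℂ)) *
        Complex.I_sq
    · field_simp
      ring

end Pool.Agent.D0H75.JS.UU
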