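import Pool.Agent.D0H75.JS.Cur
import Pool.Agent.D0H75.JS.Sp
import Pool.Agent.D0H75.JS.NP
import Pool.Agent.D0H75.JS.U
import Pool.Agent.D0H75.JS.SB
import Pool.Agent.D0H75.JS.Van
import Pool.Agent.Y120.K.All

/-!
# The modular invariant without shift: assembly
-/

set_option autoImplicit false

namespace Pool.Agent.D0H75.JS

open Pool.Agent.Y120.J

theorem hcur (s : Bool) : T_CUR s := t_cur s (Pool.Agent.Y120.K.hray s)

theorem hu (s : Bool) : T_U s := UU.t_u s (Pool.Agent.Y120.K.hray s) (hcur s) hanc hsd hode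

theorem hsp (s : Bool) : T_SP s := t_sp s (Pool.Agent.Y120.K.hray s) (hcur s)

theorem hnp (s : Bool) : T_NP s := NP.t_np s (hu s)

theorem hvan (s : Bool) : T_VAN s := van_of (Pool.Agent.Y120.K.hray s) (hcur s) (hsp s) (hnp s) Pool.Agent.Y317.K.t_alg

theorem hsb (s : Bool) : T_SB s := SB.t_sb s (hcur s) (hu s) (hvan s)

end Pool.Agent.D0H75.JS
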