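import Pool.Agent.D0H75.JS.Defs
import Pool.Agent.Y170.K.Cur

/-!
# The inverse function (after `Y170/K/Cur`)
-/

set_option autoImplicit false

open Pool.Agent.Y120.J Pool.Agent.Y120.K
open Pool.Agent.TH21.MS (jj jj_an)
open Filter Topology Set

namespace Pool.Agent.D0H75.JS

open Pool.Agent.Y120.K Pool.Agent.Y170.K

theorem t_cur (s : Bool) (h : T_RAY s) : T_CUR s := by
  obtain ⟨hA, hB⟩ := inv_an (hh s) (Ys s) (Js s) h.2.1 h.2.2.1 h.2.2.2.2
    (fun y hy => (hh_analytic s ((Ys_pos s).trans_le hy)).continuousAt.continuousWithinAt)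
    (fun y hy => hh_analytic s ((Ys_pos s).trans hy)) (fun y hy => hh_deriv s h hy)
  intro g hg
  have hJ := Js_nonneg s
  have hgJ : 0 < (g : ℝ) + Js s := hg
  constructor
  · intro x hx
    have hx0 : 0 < x := hx.1
    have hv : Js s < 1 / x - g := by
      have h1 : x < 1 / ((g : ℝ) + Js s) := hx.2
      have h2 : (g : ℝ) + Js s < 1 / x := (lt_one_div hx0 hgJ).mp h1
      linarith
    obtain ⟨h1, h2, h3⟩ := hA _ hv
    refine ⟨h1, h2, ?_⟩
    have h4 : AnalyticAt ℝ (fun x : ℝ => 1 / x - g) x :=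
      (analyticAt_const.div analyticAt_id hx0.ne').sub analyticAt_const
    exact AnalyticAt.comp (g := Function.invFunOn (hh s) (Ioi (Ys s)))
      (f := fun x : ℝ => 1 / x - g) h3 h4
  · intro y hy
    have h1 : Js s < hh s y := by
      rw [← h.2.1]
      exact h.2.2.1 self_mem_Ici hy.le hy
    have h2 : 0 < (g : ℝ) + hh s y := by linarith
    refine ⟨⟨by positivity, ?_⟩, ?_⟩
    · exact one_div_lt_one_div_of_lt hgJ (by linarith)
    · unfold Yx
      have : 1 / (1 / ((g : ℝ) + hh s y)) - g = hh s y := by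
        rw [one_div_one_div]
        ring
      rw [this]
      exact hB y hy

end Pool.Agent.D0H75.JS
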