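import Pool.Agent.Y120.K.Defs

/-!
# The modular invariant without shift: definitions

Copies of the statements of `Y120/K/Defs` (helper120) with the hypothesis `0 < g + Js s` instead of `1 ≤ g`; so for positive `j` the
case `g = 0` is included.
-/

set_option autoImplicit false

open PowerSeries Pool.Agent.Y113 Pool.Agent.Y120.GH Pool.Agent.Y120.J
open Pool.Agent.TH21.MS (jj)
open Filter Topology

namespace Pool.Agent.D0H75.JS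

open Pool.Agent.Y120.K

/-- the inverse function is analytic -/
def T_CUR (s : Bool) : Prop := ∀ g : ℕ, 0 < (g : ℝ) + Js s →
  (∀ x ∈ Set.Ioo 0 (z1 s g), Ys s < Yx s g x ∧ hh s (Yx s g x) = 1 / x - g ∧ AnalyticAt ℝ (Yx s g) x) ∧
  ∀ y : ℝ, Ys s < y → 1 / ((g : ℝ) + hh s y) ∈ Set.Ioo 0 (z1 s g) ∧ Yx s g (1 / ((g : ℝ) + hh s y)) = y

/-- analytic continuation around the elliptic point (for the coefficients nothing happens) -/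
def T_SP (s : Bool) : Prop := ∀ g : ℕ, 0 < (g : ℝ) + Js s → ∀ Q : MvPolynomial (Fin 4) (An s g),
  (∀ x ∈ Set.Ioo 0 (z1 s g), MvPolynomial.eval₂ (ea s g x : An s g →+* ℂ) (cur s g x) Q = 0) →
  ∀ x ∈ Set.Ioo 0 (z1 s g), MvPolynomial.eval₂ (ea s g x : An s g →+* ℂ) (mo (am s) (cur s g x)) Q = 0 ∧
    MvPolynomial.eval₂ (ea s g x : An s g →+* ℂ) (mo' (am s) (cur s g x)) Q = 0

/-- the logarithm at `x = 0` is transcendental over the functions which are analytic there -/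
def T_NP (s : Bool) : Prop := ∀ g : ℕ, 0 < (g : ℝ) + Js s → ∀ Q : MvPolynomial (Fin 4) (An s g),
  (∀ x ∈ Set.Ioo 0 (z1 s g), MvPolynomial.eval₂ (ea s g x : An s g →+* ℂ) (cur s g x) Q = 0) →
  ∀ x ∈ Set.Ioo 0 (z1 s g), ∀ c : ℂ, MvPolynomial.eval₂ (ea s g x : An s g →+* ℂ) (nt c (cur s g x)) Q = 0

/-- a relation on the curve vanishes identically -/
def T_VAN (s : Bool) : Prop := ∀ g : ℕ, 0 < (g : ℝ) + Js s → ∀ Q : MvPolynomial (Fin 4) (An s g),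
  (∀ x ∈ Set.Ioo 0 (z1 s g), MvPolynomial.eval₂ (ea s g x : An s g →+* ℂ) (cur s g x) Q = 0) →
  ∀ x ∈ Set.Ioo 0 (z1 s g), ∀ v, MvPolynomial.eval₂ (ea s g x : An s g →+* ℂ) v Q = 0

/-- properties of the four functions -/
def T_U (s : Bool) : Prop := ∀ g : ℕ, 0 < (g : ℝ) + Js s →
  (∀ x ∈ Set.Ico 0 (z1 s g), ∀ i, AnalyticAt ℝ (fun x => ut s g x i) x) ∧
  (∀ᶠ x in 𝓝 (0 : ℝ), ∀ i, ut s g x i = Pool.Agent.Y37.GF.E (fJ s g i) x) ∧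
  ∀ x ∈ Set.Ioo 0 (z1 s g), 0 < ut s g x 0 ∧ Jx s g x ≠ 0 ∧
    cur s g x 2 = -tpi * Jx s g x * (ut s g x 0 : ℂ) ^ 2 ∧
    cur s g x 3 = tpi ^ 2 * Jx s g x * ((ut s g x 0 : ℂ) ^ 4 - 2 * (ut s g x 0 : ℂ) ^ 3 * (ut s g x 1 : ℂ)) ∧
    (ut s g x 2 : ℂ) = -(cur s g x 0 + tpi * (cur s g x 1 - (xs s : ℂ))) * (ut s g x 0 : ℂ) ∧
    ut s g x 0 * ut s g x 3 - ut s g x 1 * ut s g x 2 = -1

/-- one shift, with coefficients analytic on the closed interval -/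
def T_SB (s : Bool) : Prop := ∀ g : ℕ, 0 < (g : ℝ) + Js s → ∀ (Δ : ℕ) (c : Pool.Agent.Y113.Ex Δ → ℝ → ℝ),
  (∀ e, ∀ x ∈ Set.Icc 0 (z1 s g), AnalyticAt ℝ (c e) x) →
  (∀ᶠ x in 𝓝[>] (0 : ℝ), ∑ e, c e x * Pool.Agent.Y37.GF.mv (ut s g x) e = 0) →
  ∀ x ∈ Set.Ioo 0 (z1 s g), ∀ e, c e x = 0

end Pool.Agent.D0H75.JS
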