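import Pool.Agent.D0H75.JS.Tup
import Pool.Agent.D0H75.LS.Mat
import Pool.Agent.Y120.J.All

/-!
# From the period functions to the points of the upper half-plane
-/

set_option autoImplicit false

open Module

namespace Pool.Agent.D0H75.JS

open Pool.Agent.Y113 Pool.Agent.R351.GD
open Pool.Agent.Y120.J (tpi pS hS)
open Pool.Agent.Y120.K (fJ)
open Pool.Agent.Y37.GF (E)
open Pool.Agent.D0H75.LS (clear)
open Pool.Agent.TH21.MS (jj)

theorem eval_cst {F : IntermediateField ℚ ℂ} {σ κ : Type} (c : σ → ℂ) (P : MvPolynomial (σ ⊕ κ) F) (u : κ → ℂ) :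
    MvPolynomial.eval u (MvPolynomial.aeval (Sum.elim (fun j => MvPolynomial.C (c j)) MvPolynomial.X) P) =
      MvPolynomial.aeval (Sum.elim c u) P := by
  have h5 : (MvPolynomial.aeval (Sum.elim c u) : MvPolynomial (σ ⊕ κ) F →ₐ[F] ℂ) =
      ((MvPolynomial.aeval u : MvPolynomial κ ℂ →ₐ[ℂ] ℂ).restrictScalars F).comp
      (MvPolynomial.aeval (Sum.elim (fun j => MvPolynomial.C (c j)) MvPolynomial.X)) := by
    refine MvPolynomial.algHom_ext fun i => ?_
    rcases i with i | i <;> simp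
  rw [h5]
  rfl

theorem mo1 {a b c d e u : ℂ} (h : a - c * u ≠ 0) :
    c * (e * ((d * u - b) / (a - c * u))) + d * e * 1 = e * ((a * d - b * c) / (a - c * u)) := by
  field_simp
  ring

theorem mo2 {a b c d e u : ℂ} (h : a - c * u ≠ 0) :
    a * (e * ((d * u - b) / (a - c * u))) + b * e * 1 = u * (e * ((a * d - b * c) / (a - c * u))) := by
  have hm : (a - c * u) / (a - c * u) = 1 := div_self h
  linear_combination (-(b * e)) * hm

/-- fractional linear substitutions -/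
theorem mobius {σ : Type} {k δ : ℕ} (c : σ → ℂ) (o : σ) (ho : c o ≠ 0) (y : Fin k × Fin 3 → ℂ) (w z : Fin k → ℂ)
    (hy : ∀ i, y (i, 0) ≠ 0) (hw : ∀ i, c o * w i * y (i, 0) = y (i, 2)) (a b c' d : Fin k → ℚ)
    (hdet : ∀ i, a i * d i - b i * c' i ≠ 0) (hden : ∀ i, (c' i : ℂ) * w i + d i ≠ 0)
    (hz : ∀ i, z i = ((a i : ℂ) * w i + b i) / ((c' i : ℂ) * w i + d i)) (h : RelK δ c z) :
    RelK ((2 * k + 1) * δ) c y := by
  classical
  obtain ⟨F, hF, hFd, P, hP, hP0, hne⟩ := h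
  set num : Fin k → MvPolynomial (σ ⊕ Fin k × Fin 3) F := fun i =>
    MvPolynomial.C ((a i : ℚ) : F) * MvPolynomial.X (Sum.inr (i, 2)) +
      MvPolynomial.C ((b i : ℚ) : F) * MvPolynomial.X (Sum.inl o) * MvPolynomial.X (Sum.inr (i, 0)) with hnum
  set den : Fin k → MvPolynomial (σ ⊕ Fin k × Fin 3) F := fun i =>
    MvPolynomial.C ((c' i : ℚ) : F) * MvPolynomial.X (Sum.inr (i, 2)) +
      MvPolynomial.C ((d i : ℚ) : F) * MvPolynomial.X (Sum.inl o) * MvPolynomial.X (Sum.inr (i, 0)) with hden'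
  have hlin : ∀ (α β : ℚ) (i : Fin k), (MvPolynomial.C (α : F) * MvPolynomial.X (Sum.inr (i, 2)) +
      MvPolynomial.C (β : F) * MvPolynomial.X (Sum.inl o) * MvPolynomial.X (Sum.inr (i, 0)) :
        MvPolynomial (σ ⊕ Fin k × Fin 3) F).totalDegree ≤ 2 := by
    intro α β i
    refine (MvPolynomial.totalDegree_add _ _).trans (max_le ?_ ?_)
    · refine (MvPolynomial.totalDegree_mul _ _).trans ?_
      rw [MvPolynomial.totalDegree_X, MvPolynomial.totalDegree_C]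
      omega
    · refine (MvPolynomial.totalDegree_mul _ _).trans ?_
      have h1 := MvPolynomial.totalDegree_mul (MvPolynomial.C (β : F)) (MvPolynomial.X (Sum.inl o) :
        MvPolynomial (σ ⊕ Fin k × Fin 3) F)
      rw [MvPolynomial.totalDegree_X, MvPolynomial.totalDegree_C] at h1
      rw [MvPolynomial.totalDegree_X]
      omega
  have hlv : ∀ (α β : ℚ) (i : Fin k) (v : Fin k × Fin 3 → ℂ), MvPolynomial.aeval (Sum.elim c v)
      (MvPolynomial.C (α : F) * MvPolynomial.X (Sum.inr (i, 2)) +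
      MvPolynomial.C (β : F) * MvPolynomial.X (Sum.inl o) * MvPolynomial.X (Sum.inr (i, 0)) :
        MvPolynomial (σ ⊕ Fin k × Fin 3) F) = α * v (i, 2) + β * c o * v (i, 0) := by
    intro α β i v
    rw [map_add, map_mul, map_mul, map_mul, MvPolynomial.aeval_X, MvPolynomial.aeval_X, MvPolynomial.aeval_X,
      MvPolynomial.algHom_C, MvPolynomial.algHom_C, map_ratCast, map_ratCast]
    rfl
  set DD : MvPolynomial (σ ⊕ Fin k × Fin 3) F := ∏ i, den i with hDD
  set N : σ ⊕ Fin k → MvPolynomial (σ ⊕ Fin k × Fin 3) F :=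
    Sum.elim (fun j => MvPolynomial.X (Sum.inl j) * DD) (fun i => num i * ∏ j ∈ Finset.univ.erase i, den j) with hN
  have hDDd : DD.totalDegree ≤ 2 * k := by
    refine (MvPolynomial.totalDegree_finsetProd _ _).trans ?_
    refine (Finset.sum_le_card_nsmul _ _ 2 fun i _ => hlin _ _ _).trans ?_
    simp [mul_comm]
  have hNd : ∀ j, (N j).totalDegree ≤ 2 * k + 1 := by
    rintro (j | i)
    · show (MvPolynomial.X (Sum.inl j) * DD).totalDegree ≤ _
      refine (MvPolynomial.totalDegree_mul _ _).trans ?_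
      rw [MvPolynomial.totalDegree_X]
      omega
    · show (num i * ∏ j ∈ Finset.univ.erase i, den j).totalDegree ≤ _
      refine (MvPolynomial.totalDegree_mul _ _).trans ?_
      have h1 := hlin (a i) (b i) i
      have h2 : (∏ j ∈ Finset.univ.erase i, den j).totalDegree ≤ 2 * (k - 1) := by
        refine (MvPolynomial.totalDegree_finsetProd _ _).trans ?_
        refine (Finset.sum_le_card_nsmul _ _ 2 fun i _ => hlin _ _ _).trans ?_
        rw [Finset.card_erase_of_mem (Finset.mem_univ _)]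
        simp [mul_comm]
      have h3 : 0 < k := i.pos
      have h4 : (num i).totalDegree ≤ 2 := h1
      omega
  have hN0 : ∀ j, N (Sum.inl j) = MvPolynomial.X (Sum.inl j) * DD := fun _ => rfl
  have hN1 : ∀ i, N (Sum.inr i) = num i * ∏ j ∈ Finset.univ.erase i, den j := fun _ => rfl
  have hnv : ∀ i v, MvPolynomial.aeval (Sum.elim c v) (num i) = a i * v (i, 2) + b i * c o * v (i, 0) :=
    fun i v => hlv _ _ _ _
  have hdv : ∀ i v, MvPolynomial.aeval (Sum.elim c v) (den i) = c' i * v (i, 2) + d i * c o * v (i, 0) :=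
    fun i v => hlv _ _ _ _
  obtain ⟨Q, hQ, hQv⟩ := clear P hP DD N hDDd hNd
  have hval : ∀ v : Fin k × Fin 3 → ℂ, (∀ i, (c' i * v (i, 2) + d i * c o * v (i, 0) : ℂ) ≠ 0) →
      MvPolynomial.aeval (Sum.elim c v) DD ≠ 0 ∧
      (fun j => MvPolynomial.aeval (Sum.elim c v) (N j) / MvPolynomial.aeval (Sum.elim c v) DD) =
        Sum.elim c (fun i => (a i * v (i, 2) + b i * c o * v (i, 0)) / (c' i * v (i, 2) + d i * c o * v (i, 0))) := by
    intro v hv
    have h1 : MvPolynomial.aeval (Sum.elim c v) DD = ∏ i, (c' i * v (i, 2) + d i * c o * v (i, 0) : ℂ) := by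
      rw [hDD, map_prod]
      exact Finset.prod_congr rfl fun i _ => hdv i v
    have h2 : MvPolynomial.aeval (Sum.elim c v) DD ≠ 0 := by
      rw [h1]
      exact Finset.prod_ne_zero_iff.2 fun i _ => hv i
    refine ⟨h2, ?_⟩
    funext j
    rcases j with j | i
    · rw [hN0, map_mul, MvPolynomial.aeval_X, mul_div_assoc, div_self h2, mul_one, Sum.elim_inl, Sum.elim_inl]
    · rw [hN1, map_mul, hnv, Sum.elim_inr, h1, map_prod]
      have h4 : ∏ x ∈ Finset.univ.erase i, MvPolynomial.aeval (Sum.elim c v) (den x) =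
          ∏ x ∈ Finset.univ.erase i, (c' x * v (x, 2) + d x * c o * v (x, 0) : ℂ) :=
        Finset.prod_congr rfl fun i _ => hdv i v
      have h5 : ∏ x ∈ Finset.univ.erase i, (c' x * v (x, 2) + d x * c o * v (x, 0) : ℂ) ≠ 0 :=
        Finset.prod_ne_zero_iff.mpr fun i _ => hv i
      rw [h4, ← Finset.mul_prod_erase Finset.univ (fun i => (c' i * v (i, 2) + d i * c o * v (i, 0) : ℂ))
        (Finset.mem_univ i), ← div_div, mul_div_right_comm, mul_div_assoc, div_self h5, mul_one]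
  refine ⟨F, hF, hFd.trans (Nat.le_mul_of_pos_left _ (by omega)), Q, hQ, ?_, fun hQ0 => hne ?_⟩
  · have h1 := hval y (fun i => by
      have h2 : (c' i * y (i, 2) + d i * c o * y (i, 0) : ℂ) = (c' i * w i + d i) * (c o * y (i, 0)) := by
        rw [← hw i]
        ring
      rw [h2]
      exact mul_ne_zero (hden i) (mul_ne_zero ho (hy i)))
    rw [hQv _ h1.1, h1.2]
    have h3 : (fun i => (a i * y (i, 2) + b i * c o * y (i, 0) : ℂ) / (c' i * y (i, 2) + d i * c o * y (i, 0))) = z := by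
      funext i
      rw [hz i, ← hw i]
      have h4 : (a i * (c o * w i * y (i, 0)) + b i * c o * y (i, 0) : ℂ) = (a i * w i + b i) * (c o * y (i, 0)) := by ring
      have h5 : (c' i * (c o * w i * y (i, 0)) + d i * c o * y (i, 0) : ℂ) = (c' i * w i + d i) * (c o * y (i, 0)) := by
        ring
      rw [h4, h5, mul_div_mul_right _ _ (mul_ne_zero ho (hy i))]
    rw [h3, hP0, mul_zero]
  · have hall : ∀ v : Fin k × Fin 3 → ℂ, MvPolynomial.aeval (Sum.elim c v) Q = 0 := fun v => by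
      rw [← eval_cst, hQ0, map_zero]
    have hkey : ∀ u : Fin k → ℂ, (∀ i, (a i : ℂ) - c' i * u i ≠ 0) → MvPolynomial.aeval (Sum.elim c u) P = 0 := by
      intro u hu
      set v : Fin k × Fin 3 → ℂ := fun p => ![1, 0, c o * ((d p.1 * u p.1 - b p.1) / (a p.1 - c' p.1 * u p.1))] p.2 with hv
      have hv0 : ∀ i, v (i, 0) = 1 := fun _ => rfl
      have hv2 : ∀ i, v (i, 2) = c o * ((d i * u i - b i) / (a i - c' i * u i)) := fun _ => rfl
      have hdC : ∀ i, (a i : ℂ) * d i - b i * c' i ≠ 0 := fun i => by exact_mod_cast hdet i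
      have h1 : ∀ i, (c' i * v (i, 2) + d i * c o * v (i, 0) : ℂ) = c o * ((a i * d i - b i * c' i) / (a i - c' i * u i)) := by
        intro i
        rw [hv0, hv2]
        exact mo1 (hu i)
      have h2 : ∀ i, (a i * v (i, 2) + b i * c o * v (i, 0) : ℂ) =
          u i * (c o * ((a i * d i - b i * c' i) / (a i - c' i * u i))) := by
        intro i
        rw [hv0, hv2]
        exact mo2 (hu i)
      have h3 : ∀ i, c o * ((a i * d i - b i * c' i) / (a i - c' i * u i) : ℂ) ≠ 0 := fun i =>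
        mul_ne_zero ho (div_ne_zero (hdC i) (hu i))
      have h4 := hval v (fun i => by rw [h1 i]; exact h3 i)
      have h5 := hQv _ h4.1
      rw [hall, h4.2] at h5
      have h6 : (fun i => (a i * v (i, 2) + b i * c o * v (i, 0) : ℂ) / (c' i * v (i, 2) + d i * c o * v (i, 0))) = u := by
        funext i
        rw [h1 i, h2 i, mul_div_assoc, div_self (h3 i), mul_one]
      rw [h6] at h5
      exact (mul_eq_zero.1 h5.symm).resolve_left (pow_ne_zero _ h4.1)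
    have hfr : MvPolynomial.aeval (Sum.elim (fun j => MvPolynomial.C (c j)) MvPolynomial.X) P *
        ∏ i, (MvPolynomial.C (a i : ℂ) - MvPolynomial.C (c' i : ℂ) * MvPolynomial.X i) =
          (0 : MvPolynomial (Fin k) ℂ) := by
      refine MvPolynomial.funext fun u => ?_
      rw [map_mul, map_zero, map_prod, eval_cst]
      by_cases hu : ∀ i, (a i : ℂ) - c' i * u i ≠ 0
      · rw [hkey u hu, zero_mul]
      · push Not at hu
        obtain ⟨i, hi⟩ := hu
        refine mul_eq_zero_of_right _ (Finset.prod_eq_zero (Finset.mem_univ i) ?_)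
        rw [map_sub, map_mul, MvPolynomial.eval_C, MvPolynomial.eval_C, MvPolynomial.eval_X]
        exact hi
    refine (mul_eq_zero.1 hfr).resolve_right (Finset.prod_ne_zero_iff.2 fun i _ hi => ?_)
    have h0 := congrArg (MvPolynomial.eval fun _ => (0 : ℂ)) hi
    have h1 := congrArg (MvPolynomial.eval fun _ => (1 : ℂ)) hi
    rw [map_sub, map_mul, MvPolynomial.eval_C, MvPolynomial.eval_C, MvPolynomial.eval_X, map_zero, mul_zero, sub_zero] at h0
    rw [map_sub, map_mul, MvPolynomial.eval_C, MvPolynomial.eval_C, MvPolynomial.eval_X, map_zero, mul_one, h0, zero_sub,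
      neg_eq_zero] at h1
    have h2 : (a i : ℂ) * d i - b i * c' i ≠ 0 := by exact_mod_cast hdet i
    apply h2
    rw [h0, h1]
    ring

theorem sh_zero : sh 0 = (PowerSeries.X : PowerSeries ℚ) := by
  ext m
  unfold sh
  rw [PowerSeries.coeff_mk, PowerSeries.coeff_X]
  rcases m with _ | _ | m <;> simp

theorem sf_zero (f : PowerSeries ℚ) : Pool.Agent.Y120.GH.sf 0 f = f := by
  unfold Pool.Agent.Y120.GH.sf
  rw [sh_zero, ← PowerSeries.map_algebraMap_eq_subst_X]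
  ext m
  simp

theorem lg_zero : lg 0 = 0 := by
  ext m
  unfold lg
  rw [PowerSeries.coeff_mk, map_zero]
  rcases m with _ | m <;> simp

theorem ev_neg' (t : ℝ) (f : PowerSeries ℚ) : ev t (-f) = -ev t f := by
  unfold ev
  rw [← tsum_neg]
  refine tsum_congr fun m => ?_
  rw [map_neg]
  push_cast
  ring

/-- the points with given invariants and the period functions -/
theorem pt_val : ∃ T : ℕ, ∀ (x : ℝ) (v : UpperHalfPlane), 0 < x → (T : ℝ) * x ≤ 1 → jj v = ((1 / x : ℝ) : ℂ) →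
    ∃ (γ : Matrix.SpecialLinearGroup (Fin 2) ℤ) (w : UpperHalfPlane), v = γ • w ∧ pz x 0 ≠ 0 ∧
      tpi * (w : ℂ) * pz x 0 = pz x 2 := by
  obtain ⟨T, hT⟩ := Pool.Agent.Y120.J.all_PT true
  obtain ⟨T', hT'⟩ := exists_nat_ge T
  refine ⟨T', fun x v hx hTx hv => ?_⟩
  have h1 : T ≤ 1 / x := by
    rw [le_div_iff₀ hx]
    exact (mul_le_mul_of_nonneg_right hT' hx.le).trans hTx
  obtain ⟨γ, w, hγ, h0, hw, -, -⟩ := hT (1 / x) v h1 (by
    rw [hv]
    have : (Pool.Agent.Y120.J.si true : ℤ) = 1 := rfl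
    rw [this]
    push_cast
    ring)
  set t : ℝ := 1 / x with ht
  set f : ℝ := ev t (hS true 0) with hf
  set G : ℝ := ev t (hS true 1) with hG
  have hxt : (1 : ℝ) / t = x := by rw [ht, one_div_one_div]
  have e0 : fJ true 0 0 = hS true 0 := by
    exact sf_zero _
  have e2 : fJ true 0 2 = -hS true 1 := by
    show -(Pool.Agent.Y120.GH.sf 0 (hS true 1) - Pool.Agent.Y120.GH.sf 0 (hS true 0) * lg 0) = _
    rw [sf_zero, lg_zero, mul_zero, sub_zero]
  have a0 : pS true t 0 = tpi * ((f : ℂ) * f) := by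
    show MvPolynomial.aeval _ (MvPolynomial.C tpi * (MvPolynomial.X (some 0) * MvPolynomial.X (some 0))) = _
    rw [map_mul, map_mul, MvPolynomial.aeval_X, MvPolynomial.aeval_C]
    rfl
  have a1 : pS true t 1 = (f : ℂ) * ((G : ℂ) - ((Real.log t : ℝ) : ℂ) * f) := by
    show MvPolynomial.aeval _ (MvPolynomial.X (some 0) * (MvPolynomial.X (some 1) - MvPolynomial.X none * MvPolynomial.X (some 0))) = _
    rw [map_mul, map_sub, map_mul, MvPolynomial.aeval_X, MvPolynomial.aeval_X, MvPolynomial.aeval_X]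
    rfl
  have hEf : E (fJ true 0 0) x = f := by
    rw [e0, ← hxt]
    rfl
  have hEG : E (fJ true 0 2) x = -G := by
    rw [e2, ← hxt]
    exact ev_neg' _ _
  have hf0 : (f : ℂ) ≠ 0 := by
    intro h
    apply h0
    rw [a0, h]
    ring
  have p0 : pz x 0 = (f : ℂ) := by
    show ((E (fJ true 0 0) x : ℝ) : ℂ) = _
    rw [hEf]
  have p2 : pz x 2 = (G : ℂ) - ((Real.log t : ℝ) : ℂ) * f := by
    show -((E (fJ true 0 2) x : ℝ) : ℂ) - ((Real.log (1 / x) : ℝ) : ℂ) * ((E (fJ true 0 0) x : ℝ) : ℂ) = _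
    rw [hEf, hEG]
    push_cast
    ring
  refine ⟨γ, w, hγ, by rw [p0]; exact hf0, ?_⟩
  rw [a0, a1] at hw
  rw [p0, p2]
  apply mul_left_cancel₀ hf0
  rw [← hw]
  ring

theorem im_ne {c d : ℚ} {v : ℂ} (hv : 0 < v.im) (h : c ≠ 0 ∨ d ≠ 0) : (c : ℂ) * v + d ≠ 0 := by
  intro h0
  have h1 := congrArg Complex.im h0
  simp only [Complex.add_im, Complex.mul_im, Complex.ratCast_re, Complex.ratCast_im, zero_mul, add_zero,
    Complex.zero_im] at h1
  have hc : (c : ℝ) = 0 := (mul_eq_zero.1 h1).resolve_right hv.ne'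
  have hc' : c = 0 := by exact_mod_cast hc
  rw [hc'] at h0
  have hd : (d : ℂ) = 0 := by simpa using h0
  have hd' : d = 0 := by exact_mod_cast hd
  exact h.elim (fun h => h hc') fun h => h hd'

/-- relations between points isogenous to the points with given invariants -/
theorem iso_rel : ∃ T : ℕ, ∀ {s q k δ : ℕ} (a : Fin s → ℕ) (w : Fin q → ℂ) (x : Fin k → ℝ),
    (∀ i, 0 < x i ∧ (T : ℝ) * x i ≤ 1) → ∀ z : Fin k → ℂ,
    (∀ i, ∃ v : ℂ, 0 < v.im ∧ jj v = ((1 / x i : ℝ) : ℂ) ∧ ∃ a b c d : ℚ, 0 < a * d - b * c ∧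
      z i = ((a : ℂ) * v + b) / ((c : ℂ) * v + d)) →
    RelK δ (cst tpi a w) z → RelK ((2 * k + 1) * δ) (cst tpi a w) (fun p : Fin k × Fin 3 => pz (x p.1) p.2) := by
  obtain ⟨T, hT⟩ := pt_val
  refine ⟨T, fun {s q k δ} a w x hx z hz hrel => ?_⟩
  choose v hv hvj A B C D hdet hzv using hz
  choose γ u hγ h0 hu using fun i => hT (x i) ⟨v i, hv i⟩ (hx i).1 (hx i).2 (hvj i)
  have hdetγ : ∀ i, ((γ i 0 0 : ℤ) : ℚ) * (γ i 1 1 : ℤ) - ((γ i 0 1 : ℤ) : ℚ) * (γ i 1 0 : ℤ) = 1 := by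
    intro i
    have h1 := (γ i).det_coe
    rw [Matrix.det_fin_two] at h1
    exact_mod_cast h1
  have hvu : ∀ i, v i = (((γ i 0 0 : ℤ) : ℚ) * (u i : ℂ) + ((γ i 0 1 : ℤ) : ℚ)) /
      (((γ i 1 0 : ℤ) : ℚ) * (u i : ℂ) + ((γ i 1 1 : ℤ) : ℚ)) := by
    intro i
    have h1 : v i = ((γ i • u i : UpperHalfPlane) : ℂ) := congrArg (fun z : UpperHalfPlane => (z : ℂ)) (hγ i)
    rw [UpperHalfPlane.coe_specialLinearGroup_apply] at h1
    rw [h1]
    simp
  have hm0 : ∀ i, (((γ i 1 0 : ℤ) : ℚ) * (u i : ℂ) + ((γ i 1 1 : ℤ) : ℚ)) ≠ 0 := by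
    intro i
    refine im_ne (u i).im_pos ?_
    by_contra hcon
    push Not at hcon
    have h1 := hdetγ i
    rw [hcon.1, hcon.2] at h1
    simp at h1
  have hdet' : ∀ i, (A i * ((γ i 0 0 : ℤ) : ℚ) + B i * ((γ i 1 0 : ℤ) : ℚ)) * (C i * ((γ i 0 1 : ℤ) : ℚ) + D i * ((γ i 1 1 : ℤ) : ℚ)) -
      (A i * ((γ i 0 1 : ℤ) : ℚ) + B i * ((γ i 1 1 : ℤ) : ℚ)) * (C i * ((γ i 0 0 : ℤ) : ℚ) + D i * ((γ i 1 0 : ℤ) : ℚ)) ≠ 0 := by
    intro i
    have h1 : (A i * ((γ i 0 0 : ℤ) : ℚ) + B i * ((γ i 1 0 : ℤ) : ℚ)) * (C i * ((γ i 0 1 : ℤ) : ℚ) + D i * ((γ i 1 1 : ℤ) : ℚ)) -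
      (A i * ((γ i 0 1 : ℤ) : ℚ) + B i * ((γ i 1 1 : ℤ) : ℚ)) * (C i * ((γ i 0 0 : ℤ) : ℚ) + D i * ((γ i 1 0 : ℤ) : ℚ)) =
        A i * D i - B i * C i := by
      linear_combination (A i * D i - B i * C i) * hdetγ i
    rw [h1]
    exact (hdet i).ne'
  refine mobius (cst tpi a w) none Pool.Agent.Y120.K.tpi_ne (fun p : Fin k × Fin 3 => pz (x p.1) p.2) (fun i => (u i : ℂ)) z
    (fun i => h0 i) (fun i => hu i)
    (fun i => A i * ((γ i 0 0 : ℤ) : ℚ) + B i * ((γ i 1 0 : ℤ) : ℚ))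
    (fun i => A i * ((γ i 0 1 : ℤ) : ℚ) + B i * ((γ i 1 1 : ℤ) : ℚ))
    (fun i => C i * ((γ i 0 0 : ℤ) : ℚ) + D i * ((γ i 1 0 : ℤ) : ℚ))
    (fun i => C i * ((γ i 0 1 : ℤ) : ℚ) + D i * ((γ i 1 1 : ℤ) : ℚ)) hdet' (fun i => ?_) (fun i => ?_) hrel
  · refine im_ne (u i).im_pos ?_
    by_contra hcon
    push Not at hcon
    apply hdet' i
    rw [hcon.1, hcon.2]
    ring
  · rw [hzv i, hvu i]
    have h2 := hm0 i
    have e1 : (A i : ℂ) * ((((γ i 0 0 : ℤ) : ℚ) * (u i : ℂ) + ((γ i 0 1 : ℤ) : ℚ)) /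
      (((γ i 1 0 : ℤ) : ℚ) * (u i : ℂ) + ((γ i 1 1 : ℤ) : ℚ))) + B i =
        (((A i * ((γ i 0 0 : ℤ) : ℚ) + B i * ((γ i 1 0 : ℤ) : ℚ) : ℚ) : ℂ) * (u i : ℂ) +
          ((A i * ((γ i 0 1 : ℤ) : ℚ) + B i * ((γ i 1 1 : ℤ) : ℚ) : ℚ) : ℂ)) /
            (((γ i 1 0 : ℤ) : ℚ) * (u i : ℂ) + ((γ i 1 1 : ℤ) : ℚ)) := by
      rw [eq_div_iff h2, add_mul, mul_assoc, div_mul_cancel₀ _ h2]
      push_cast
      ring
    have e2 : (C i : ℂ) * ((((γ i 0 0 : ℤ) : ℚ) * (u i : ℂ) + ((γ i 0 1 : ℤ) : ℚ)) /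
      (((γ i 1 0 : ℤ) : ℚ) * (u i : ℂ) + ((γ i 1 1 : ℤ) : ℚ))) + D i =
        (((C i * ((γ i 0 0 : ℤ) : ℚ) + D i * ((γ i 1 0 : ℤ) : ℚ) : ℚ) : ℂ) * (u i : ℂ) +
          ((C i * ((γ i 0 1 : ℤ) : ℚ) + D i * ((γ i 1 1 : ℤ) : ℚ) : ℚ) : ℂ)) /
            (((γ i 1 0 : ℤ) : ℚ) * (u i : ℂ) + ((γ i 1 1 : ℤ) : ℚ)) := by
      rw [eq_div_iff h2, add_mul, mul_assoc, div_mul_cancel₀ _ h2]
      push_cast
      ring
    rw [e1, e2, div_div_div_cancel_right₀ h2]

end Pool.Agent.D0H75.JS
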