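import Pool.Agent.D0H75.JS.All
import Pool.Agent.D0H75.JS.Rs
import Pool.Agent.D0H75.LS.LI
import Pool.Agent.Y167.K.Lij

/-!
# The modular invariant: linear independence of the monomials at different multiples of the variable
-/

set_option autoImplicit false

open PowerSeries Filter Topology Set

namespace Pool.Agent.D0H75.JS

open Pool.Agent.Y113 Pool.Agent.Y120.J
open Pool.Agent.Y120.K (ut fJ z1 monJ)
open Pool.Agent.Y37.GF (E SR mv)
open Pool.Agent.D0H75.LS (rs coeff_rs E_rs SR_rs)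
open Pool.Agent.Y167.K (mv_an poly_zero' SR_fJ SR_mon E_mon)

/-- the end of the interval -/
noncomputable def ze : ℝ := z1 true 0

theorem ze_pos : 0 < ze := by
  unfold ze z1
  have := Pool.Agent.Y167.K.Js_nonneg true
  have h1 : Pool.Agent.Y120.K.Js true = 1728 := rfl
  rw [h1]
  norm_num

theorem hg0 : 0 < ((0 : ℕ) : ℝ) + Pool.Agent.Y120.K.Js true := by
  have h1 : Pool.Agent.Y120.K.Js true = 1728 := rfl
  rw [h1]
  norm_num

/-- one argument, with coefficients analytic on the closed interval -/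
theorem single {g Δ : ℕ} (hg : 0 < g) (c : Ex Δ → ℝ → ℝ)
    (hc : ∀ e, ∀ z ∈ Icc 0 (ze / (g : ℝ)), AnalyticAt ℝ (c e) z)
    (h : ∀ᶠ z in 𝓝[>] (0 : ℝ), ∑ e, c e z * mv (ut true 0 (g * z)) e = 0) :
    ∀ z ∈ Ioo 0 (ze / (g : ℝ)), ∀ e, c e z = 0 := by
  have hg0' : (0 : ℝ) < g := by exact_mod_cast hg
  have h1 : ∀ e, ∀ s ∈ Icc 0 (z1 true 0), AnalyticAt ℝ (fun s => c e (s / g)) s := by
    intro e s hs
    refine (hc e (s / g) ⟨div_nonneg hs.1 hg0'.le, ?_⟩).comp_of_eq
      (analyticAt_id.div_const) rfl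
    exact div_le_div_of_nonneg_right hs.2 hg0'.le
  have ht : Tendsto (fun s : ℝ => s / g) (𝓝[>] (0 : ℝ)) (𝓝[>] (0 : ℝ)) := by
    refine tendsto_nhdsWithin_iff.2 ⟨?_, ?_⟩
    · have h2 : Tendsto (fun s : ℝ => s / g) (𝓝 (0 : ℝ)) (𝓝 (0 / (g : ℝ))) :=
        (continuous_id.div_const (g : ℝ)).tendsto 0
      rw [zero_div] at h2
      exact h2.mono_left nhdsWithin_le_nhds
    · filter_upwards [self_mem_nhdsWithin] with s hs
      exact div_pos hs hg0'
  have h2 : ∀ᶠ s in 𝓝[>] (0 : ℝ), ∑ e, c e (s / g) * mv (ut true 0 s) e = 0 := by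
    filter_upwards [ht.eventually h] with s hs
    have h3 : (g : ℝ) * (s / g) = s := by field_simp
    rw [h3] at hs
    exact hs
  have h3 := hsb true 0 hg0 Δ (fun e s => c e (s / g)) h1 h2
  intro z hz e
  have h4 := h3 (g * z) (by
    refine ⟨mul_pos hg0' hz.1, ?_⟩
    have := hz.2
    rw [lt_div_iff₀ hg0'] at this
    show (g : ℝ) * z < ze
    linarith) e
  have h5 : (g : ℝ) * z / g = z := by field_simp
  simp only [h5] at h4
  exact h4

/-- all arguments -/
theorem multi (Δ : ℕ) (n : ℕ) : ∀ (ι : Type) [Fintype ι] [DecidableEq ι] (g : ι → ℕ)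
    (Q : (ι → Ex Δ) → Polynomial ℝ), Fintype.card ι = n → Function.Injective g → (∀ l, 0 < g l) →
    (∀ᶠ z in 𝓝[>] (0 : ℝ), ∑ b, (Q b).eval z * ∏ l, mv (ut true 0 (g l * z)) (b l) = 0) →
    ∀ b, Q b = 0 := by
  induction n with
  | zero =>
    intro ι _ _ g Q hcard _ _ h b
    have : IsEmpty ι := Fintype.card_eq_zero_iff.1 hcard
    apply poly_zero'
    filter_upwards [h] with z hz
    rw [Fintype.sum_eq_single b (fun b' hb' => absurd (Subsingleton.elim b' b) hb')] at hz
    simpa using hz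
  | succ n ih =>
    intro ι _ _ g Q hcard hg hgp h b
    have hne : (Finset.univ : Finset ι).Nonempty := by
      rw [← Finset.card_pos, Finset.card_univ, hcard]; omega
    obtain ⟨l₁, -, hl₁⟩ := Finset.exists_max_image Finset.univ g hne
    let e := Equiv.funSplitAt l₁ (Ex Δ)
    -- the coefficients
    let c : Ex Δ → ℝ → ℝ := fun x z => ∑ b' : {j // j ≠ l₁} → Ex Δ,
      (Q (e.symm (x, b'))).eval z * ∏ l : {j // j ≠ l₁}, mv (ut true 0 (g l * z)) (b' l)
    have hg1 : (0 : ℝ) < g l₁ := by exact_mod_cast hgp l₁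
    have hlt : ∀ l : {j // j ≠ l₁}, (g l : ℝ) < g l₁ := by
      intro l
      have h1 : g l < g l₁ := lt_of_le_of_ne (hl₁ l (Finset.mem_univ _)) fun h => l.2 (hg h)
      exact_mod_cast h1
    have hcan : ∀ x, ∀ z ∈ Icc 0 (ze / (g l₁ : ℝ)), AnalyticAt ℝ (c x) z := by
      intro x z hz
      refine Finset.analyticAt_fun_sum _ fun b' _ => ?_
      refine AnalyticAt.mul ?_ ?_
      · exact (AnalyticOnNhd.eval_polynomial (𝕜 := ℝ) _) z (Set.mem_univ _)
      · refine Finset.analyticAt_fun_prod _ fun l _ => mv_an _ fun i => ?_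
        have hl0 : (0 : ℝ) ≤ g l := Nat.cast_nonneg _
        have h1 : (g l : ℝ) * z < z1 true 0 := by
          show (g l : ℝ) * z < ze
          have h2 : (g l₁ : ℝ) * z ≤ ze := by
            have := hz.2
            rw [le_div_iff₀ hg1] at this
            linarith
          rcases hz.1.eq_or_lt with h3 | h3
          · rw [← h3, mul_zero]; exact ze_pos
          · have := mul_lt_mul_of_pos_right (hlt l) h3
            linarith
        exact ((hu true 0 hg0).1 ((g l : ℝ) * z) ⟨mul_nonneg hl0 hz.1, h1⟩ i).comp_of_eq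
          (analyticAt_const.mul analyticAt_id) rfl
    have hsum : ∀ z, ∑ b, (Q b).eval z * ∏ l, mv (ut true 0 (g l * z)) (b l)
        = ∑ x, c x z * mv (ut true 0 (g l₁ * z)) x := by
      intro z
      rw [← e.symm.sum_comp, Fintype.sum_prod_type]
      refine Finset.sum_congr rfl fun x _ => ?_
      rw [Finset.sum_mul]
      refine Finset.sum_congr rfl fun b' _ => ?_
      rw [Fintype.prod_eq_mul_prod_subtype_ne _ l₁]
      have h1 : e.symm (x, b') l₁ = x := by simp [e, Equiv.funSplitAt, Equiv.piSplitAt]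
      have h2 : ∀ l : {j // j ≠ l₁}, e.symm (x, b') l = b' l := by
        intro l; simp [e, Equiv.funSplitAt, Equiv.piSplitAt, l.2]
      rw [h1]
      simp only [h2]
      ring
    have hz0 := single (hgp l₁) c hcan (h.mono fun z hz => by rw [← hsum]; exact hz)
    have hI : Ioo 0 (ze / (g l₁ : ℝ)) ∈ 𝓝[>] (0 : ℝ) := Ioo_mem_nhdsGT (div_pos ze_pos hg1)
    have key : ∀ x, ∀ b', Q (e.symm (x, b')) = 0 := by
      intro x
      refine ih {j // j ≠ l₁} (fun l => g l) (fun b' => Q (e.symm (x, b'))) ?_ ?_ ?_ ?_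
      · rw [Fintype.card_subtype_compl, hcard]; simp
      · intro a b hab; exact Subtype.ext (hg hab)
      · exact fun l => hgp l
      · filter_upwards [hI] with z hz
        exact hz0 z hz x
    have := key (e b).1 (e b).2
    rwa [Prod.mk.eta, Equiv.symm_apply_apply] at this

/-- the monomials at `g x` -/
noncomputable def mG {Δ : ℕ} (g : ℕ) (e : Ex Δ) : ℚ⟦X⟧ := rs g (monJ true 0 e)

theorem E_mG {Δ g : ℕ} (e : Ex Δ) (z : ℝ) : E (mG g e) z = E (monJ true 0 e) (g * z) := E_rs g _ z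

/-- **Linear independence** -/
theorem lin (k Δ : ℕ) (g : Fin k → ℕ) (hg : Function.Injective g) (hgp : ∀ l, 0 < g l) :
    LinearIndependent (Polynomial ℚ) (fun b : Fin k → Ex Δ => ∏ l, mG (g l) (b l)) := by
  rw [Fintype.linearIndependent_iff]
  intro Q hQ
  obtain ⟨ρ, hρ0, hρ⟩ := SR_fJ true 0
  -- a common radius
  set r : ℝ := ρ / ((∑ l, (g l : ℝ)) + 1) with hr
  have hS : 0 ≤ ∑ l, (g l : ℝ) := Finset.sum_nonneg fun l _ => by positivity
  have hr0 : 0 < r := by positivity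
  have hrl : ∀ l, (g l : ℝ) * r ≤ ρ := by
    intro l
    have h0 := Finset.single_le_sum (f := fun l => (g l : ℝ)) (fun l _ => by positivity)
      (Finset.mem_univ l)
    have h1 : (g l : ℝ) ≤ (∑ l, (g l : ℝ)) + 1 := by
      have h2 : (g l : ℝ) ≤ ∑ l, (g l : ℝ) := h0
      linarith
    rw [hr, mul_div_assoc', div_le_iff₀ (by positivity), mul_comm]
    exact mul_le_mul_of_nonneg_left h1 hρ0.le
  have hSR : ∀ b : Fin k → Ex Δ, ∀ l ∈ (Finset.univ : Finset (Fin k)), SR r (mG (g l) (b l)) := by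
    intro b l _
    refine SR_rs ?_
    exact (SR_mon (b l) hρ0.le hρ).mono (mul_nonneg (Nat.cast_nonneg _) hr0.le) (hrl l)
  have hSP : ∀ b : Fin k → Ex Δ, SR r (∏ l, mG (g l) (b l)) := fun b => SR.prod _ hr0.le (hSR b)
  have hval : ∀ z : ℝ, |z| ≤ r → ∑ b, ((Q b).map (Rat.castHom ℝ)).eval z *
      ∏ l, mv (fun i => E (fJ true 0 i) (g l * z)) (b l) = 0 := by
    intro z hz
    have h1 : E (∑ b, Q b • ∏ l, mG (g l) (b l)) z = 0 := by rw [hQ]; simp [E]
    have h2 : ∀ b, Q b • ∏ l, mG (g l) (b l) = (Q b : PowerSeries ℚ) * ∏ l, mG (g l) (b l) := fun b => by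
      rw [Algebra.smul_def]; rfl
    simp only [h2] at h1
    rw [Pool.Agent.Y37.GF.E_sum _ hr0.le (fun b _ => (SR.poly _ _).mul hr0.le (hSP b)) hz] at h1
    rw [← h1]
    refine Finset.sum_congr rfl fun b _ => ?_
    rw [Pool.Agent.Y37.GF.E_mul (SR.poly _ _) (hSP b) hz, Pool.Agent.Y37.GF.E_poly]
    rw [Pool.Agent.Y37.GF.E_prod _ hr0.le (hSR b) hz]
    congr 1
    · rw [Polynomial.eval_map, Polynomial.aeval_def]; rfl
    · refine Finset.prod_congr rfl fun l _ => ?_
      rw [E_mG]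
      refine (E_mon (b l) hρ0.le hρ ?_).symm
      rw [abs_mul, abs_of_nonneg (Nat.cast_nonneg _ : (0 : ℝ) ≤ (g l : ℝ))]
      exact (mul_le_mul_of_nonneg_left hz (Nat.cast_nonneg _)).trans (hrl l)
  have hsmall : ∀ᶠ z in 𝓝 (0 : ℝ), ∀ l, ∀ i, ut true 0 (g l * z) i = E (fJ true 0 i) (g l * z) := by
    rw [eventually_all]
    intro l
    have h1 : Tendsto (fun z : ℝ => (g l : ℝ) * z) (𝓝 0) (𝓝 0) := by
      have h2 : Tendsto (fun z : ℝ => (g l : ℝ) * z) (𝓝 0) (𝓝 ((g l : ℝ) * 0)) :=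
        (continuous_const.mul continuous_id).tendsto 0
      rwa [mul_zero] at h2
    exact h1.eventually (hu true 0 hg0).2.1
  have hball : ∀ᶠ z in 𝓝 (0 : ℝ), |z| ≤ r := by
    have : Metric.ball (0 : ℝ) r ∈ 𝓝 (0 : ℝ) := Metric.ball_mem_nhds _ hr0
    filter_upwards [this] with z hz
    rw [mem_ball_zero_iff, Real.norm_eq_abs] at hz
    exact hz.le
  have main := multi Δ k (Fin k) g (fun b => (Q b).map (Rat.castHom ℝ)) (Fintype.card_fin k) hg hgp (by
    filter_upwards [nhdsWithin_le_nhds hsmall, nhdsWithin_le_nhds hball] with z h1 h2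
    rw [← hval z h2]
    refine Finset.sum_congr rfl fun b _ => ?_
    congr 1
    refine Finset.prod_congr rfl fun l _ => ?_
    congr 1
    exact funext (h1 l))
  intro b
  have := main b
  rwa [Polynomial.map_eq_zero] at this

end Pool.Agent.D0H75.JS
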