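import Pool.Agent.D0H75.JS.LI
import Pool.Agent.R351.GD.J.Nrj

/-!
# The modular invariant: no relations between the values at `g / t`
-/

set_option autoImplicit false

open PowerSeries Filter Topology

namespace Pool.Agent.D0H75.JS

open Pool.Agent.Y113 Pool.Agent.Y120.J Pool.Agent.R351.GD
open Pool.Agent.Y120.K (fJ monJ baseJ T_BASEJ)
open Pool.Agent.D0H75.LS (rs coeff_rs E_rs)
open Pool.Agent.Y929.K (mkE)

/-- the values `F`, `θF`, `-G` at `g / t` -/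
noncomputable def sv (t g : ℕ) (i : Fin 3) : ℝ := ev (t : ℝ) (rs g (fJ true 0 i.castSucc))

/-- the G-systems of the monomials -/
theorem mG_sys : ∃ (q₀ c : ℕ) (E₀ : ℕ → ℕ) (T : Polynomial ℤ), PB E₀ ∧
    (∀ (Δ g : ℕ), GSys q₀ (((g : ℝ) + 2) ^ E₀ Δ) (rp g T) (fun e : Ex Δ => mG g e)) ∧
    ∀ x : ℝ, 0 < x → x * c < 1 → Polynomial.aeval x T ≠ 0 := by
  obtain ⟨q₀, Eb, c₀, Tg, hsys, hne⟩ := Pool.Agent.Y120.K.hbase true
  have hT : Tg 0 ≠ 0 := by
    intro h0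
    have h1 := hne 0 (c₀ + 1) (by omega)
    rw [h0, map_zero] at h1
    exact h1 rfl
  obtain ⟨c, hc⟩ := small_root hT
  refine ⟨q₀, c, fun Δ => (q₀ + 1) + (Eb + 1) * ((q₀ + 6) * Δ + 1), Tg 0, ?_, fun Δ g => ?_, hc⟩
  · exact (PB.const (q₀ + 1)).add ((PB.const (Eb + 1)).mul (((PB.const (q₀ + 6)).mul PB.id).add (PB.const 1)))
  · have h1 := monJ_c hode true (hsys 0) Δ
    have h2 := gsys_rs h1 g
    refine h2.mono le_rfl ?_
    have hg : (0 : ℝ) ≤ g := by positivity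
    rw [pow_add ((g : ℝ) + 2) (q₀ + 1) ((Eb + 1) * ((q₀ + 6) * Δ + 1))]
    refine mul_le_mul_of_nonneg_left ?_ (by positivity)
    rw [pow_mul ((g : ℝ) + 2)]
    have e1 : 2 * (((0 : ℕ) : ℝ) + 2) ^ Eb = 2 ^ (Eb + 1) := by
      rw [Nat.cast_zero, zero_add, pow_succ']
    rw [e1]
    exact pow_le_pow_left₀ (by positivity) (pow_le_pow_left₀ (by norm_num) (by linarith) _) _

theorem mG_mkE {g Δ : ℕ} (v : Fin 3 → ℕ) (h : ∑ i, v i ≤ Δ) :
    mG g (mkE v h) = ∏ i : Fin 3, rs g (fJ true 0 i.castSucc) ^ v i := by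
  unfold mG
  rw [Pool.Agent.Y929.K.monJ_mkE, map_prod]
  exact Finset.prod_congr rfl fun i _ => map_pow _ _ _

theorem norel (N : ℕ) : ∃ E : ℕ → ℕ, PB E ∧
    ∀ (Δ H t : ℕ), (H + 2) ^ E Δ ≤ t → ∀ g : Fin N → ℕ, Function.Injective g → (∀ i, 1 ≤ g i ∧ g i ≤ H) →
    ∀ P : MvPolynomial (Fin N × Fin 3) ℚ, P.totalDegree ≤ Δ →
    MvPolynomial.aeval (fun p : Fin N × Fin 3 => ((sv t (g p.1) p.2 : ℝ) : ℂ)) P = 0 → P = 0 := by
  classical
  obtain ⟨q₀, c, E₀, T, hE₀p, hsys, hne⟩ := mG_sys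
  obtain ⟨q, EF, hEFp, hF⟩ := multi_exp q₀ E₀ hE₀p N
  obtain ⟨EG, hEGp, hG⟩ := gof_exp Pool.Agent.Y141.GF.t_shid Pool.Agent.Y141.GF.t_loc q
  refine ⟨fun Δ => (c + 1) + (E₀ 1 + 3) + (EF Δ + 1) * EG (((Δ + 1) ^ 4) ^ N), ?_, fun Δ H t ht g hinj hgH P hP hP0 => ?_⟩
  · have h1 : PB fun Δ : ℕ => ((Δ + 1) ^ 4) ^ N := ((PB.id.add (PB.const 1)).pow 4).pow N
    exact (PB.const (c + 1 + (E₀ 1 + 3))).add ((hEFp.add (PB.const 1)).mul (hEGp.comp h1))
  have hF := hF Δ (Ex Δ) (fun g e => mG g e) (fun g => rp g T) (fun g => hsys Δ g) H g (fun l => (hgH l).2)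
  have hG := hG (((Δ + 1) ^ 4) ^ N)
  set EF := EF Δ
  set EG := EG (((Δ + 1) ^ 4) ^ N)
  set E := (c + 1) + (E₀ 1 + 3) + (EF + 1) * EG with hE
  have ht' : (H + 2) ^ E ≤ t := ht
  have hH2 : (1 : ℝ) ≤ (H : ℝ) + 2 := one_le_base H
  have htR : ((H : ℝ) + 2) ^ E ≤ t := by exact_mod_cast ht'
  have hge : ∀ a ≤ E, ((H : ℝ) + 2) ^ a ≤ t := fun a ha => (base_mono hH2 ha).trans htR
  have ht0' : 0 < t := lt_of_lt_of_le (by positivity) ht'
  have ht0 : (0 : ℝ) < t := by exact_mod_cast ht0'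
  have hgc : ∀ l, 0 < (g l : ℝ) * (1 / t) ∧ (g l : ℝ) * (1 / t) * c < 1 := by
    intro l
    have h0 : (0 : ℝ) < g l := by exact_mod_cast (hgH l).1
    refine ⟨by positivity, ?_⟩
    have h1 : (H + 2) ^ (c + 1) ≤ t := (Nat.pow_le_pow_right (by omega) (by omega)).trans ht'
    have h2 : (H + 2) ^ c * (H + 2) ≤ t := by rw [← pow_succ]; exact h1
    have h3 : 2 ^ c ≤ (H + 2) ^ c := Nat.pow_le_pow_left (by omega) _
    have h4 : c < 2 ^ c := Nat.lt_two_pow_self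
    have h5 : g l * c < t := by
      have h6 := (hgH l).2
      calc g l * c ≤ H * c := Nat.mul_le_mul_right _ h6
        _ ≤ H * 2 ^ c := Nat.mul_le_mul_left _ h4.le
        _ < (H + 2) * (H + 2) ^ c := by
          have : 0 < (H + 2) ^ c := by positivity
          nlinarith
        _ = (H + 2) ^ c * (H + 2) := mul_comm _ _
        _ ≤ t := h2
    have h6 : (g l : ℝ) * c < t := by exact_mod_cast h5
    rw [mul_one_div, div_mul_eq_mul_div, div_lt_one ht0]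
    exact h6
  have hcv : ∀ (l : Fin N) (i : Fin 3), Cv (t : ℝ) (rs (g l) (fJ true 0 i.castSucc)) := by
    intro l i
    have h00 : ∑ j : Fin 3, (fun j : Fin 3 => if j = i then 1 else 0) j ≤ 1 := by simp
    have h1 := (hsys 1 (g l)).size (mkE (fun j : Fin 3 => if j = i then 1 else 0) h00)
    have h2 : mG (g l) (mkE (fun j : Fin 3 => if j = i then 1 else 0) h00) = rs (g l) (fJ true 0 i.castSucc) := by
      rw [mG_mkE, Finset.prod_eq_single i]
      · simp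
      · intro j _ hj
        rw [if_neg hj, pow_zero]
      · intro h
        exact absurd (Finset.mem_univ _) h
    rw [h2] at h1
    set B : ℝ := ((g l : ℝ) + 2) ^ E₀ 1 with hB
    have hB0 : 0 ≤ B := by positivity
    refine Cv.of_bound (A := B) (B := B) ht0 hB0 ?_ fun m => ?_
    · have hH0 : (0 : ℝ) ≤ H := by positivity
      have h2 : B ≤ ((H : ℝ) + 2) ^ E₀ 1 := by
        refine pow_le_pow_left₀ (by positivity) ?_ _
        have : ((g l : ℕ) : ℝ) ≤ H := by exact_mod_cast (hgH l).2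
        linarith
      have h3 : ((H : ℝ) + 2) ^ E₀ 1 < ((H : ℝ) + 2) ^ (E₀ 1 + 2) := pow_lt_pow_right₀ (by linarith) (by omega)
      have h4 : ((H : ℝ) + 2) ^ (E₀ 1 + 2) ≤ (t : ℝ) := hge _ (by omega)
      linarith
    · exact (h1 m).trans (le_of_eq (pow_succ' _ _))
  have h00 : ∑ i : Fin 3, (fun _ : Fin 3 => 0) i ≤ Δ := by simp
  have hone : (fun b : Fin N → Ex Δ => ∏ l, mG (g l) (b l)) (fun _ => mkE (fun _ => 0) h00) = 1 := by
    refine Finset.prod_eq_one fun l _ => ?_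
    rw [mG_mkE]
    simp
  have hEG : (2 * ((H : ℝ) + 2) ^ EF) ^ EG ≤ t := by
    refine (pow_base H _ _).trans (hge _ ?_)
    rw [hE]
    omega
  have hcard : Fintype.card (Fin N → Ex Δ) ≤ ((Δ + 1) ^ 4) ^ N := by
    rw [Fintype.card_fun, Fintype.card_fin]
    exact Nat.pow_le_pow_left (card_Ex Δ) N
  have hT0 : Polynomial.aeval (1 / (t : ℝ)) (∏ l, rp (g l) T) ≠ 0 := by
    rw [map_prod]
    refine Finset.prod_ne_zero_iff.2 fun l _ => ?_
    rw [aeval_rp]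
    exact hne _ (hgc l).1 (hgc l).2
  have hLI := hG (Fin N → Ex Δ) (((H : ℝ) + 2) ^ EF) (∏ l, rp (g l) T)
    (fun b : Fin N → Ex Δ => ∏ l, mG (g l) (b l)) (fun _ => mkE (fun _ => 0) h00) t hcard hF hone
    (lin N Δ g hinj fun l => (hgH l).1) hEG hT0
  -- the exponents
  have hdeg : ∀ m ∈ P.support, ∑ p, m p ≤ Δ := by
    intro m hm'
    have h1 := (MvPolynomial.le_totalDegree hm').trans hP
    rwa [Finsupp.sum_fintype _ _ (fun _ => rfl)] at h1
  have hdl : ∀ m ∈ P.support, ∀ l : Fin N, ∑ i : Fin 3, m (l, i) ≤ Δ := by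
    intro m hm' l
    refine le_trans ?_ (hdeg m hm')
    rw [Fintype.sum_prod_type]
    exact Finset.single_le_sum (f := fun l => ∑ i : Fin 3, m (l, i)) (fun _ _ => Nat.zero_le _) (Finset.mem_univ l)
  let bs : P.support → Fin N → Ex Δ := fun m l =>
    mkE (fun i => (m : (Fin N × Fin 3) →₀ ℕ) (l, i)) (hdl m m.2 l)
  have hbs : Function.Injective bs := by
    intro m m' h
    apply Subtype.ext
    ext ⟨l, i⟩
    exact congrFun (Pool.Agent.Y929.K.mkE_inj _ _ (congrFun h l)) i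
  have hLI2 := hLI.comp bs hbs
  -- the values
  have hcm : ∀ (m : P.support) (l : Fin N), Cv (t : ℝ) (mG (g l) (bs m l)) := by
    intro m l
    show Cv (t : ℝ) (mG (g l) (mkE (fun i => (m : (Fin N × Fin 3) →₀ ℕ) (l, i)) (hdl m m.2 l)))
    rw [mG_mkE]
    exact Cv.prod ht0 _ _ fun i _ => (hcv l i).pow ht0 _
  have hval : ∀ m : P.support, ∏ p : Fin N × Fin 3, ((sv t (g p.1) p.2 : ℝ) : ℂ) ^ (m : (Fin N × Fin 3) →₀ ℕ) p =
      ((ev (t : ℝ) (∏ l, mG (g l) (bs m l)) : ℝ) : ℂ) := by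
    intro m
    rw [Cv.ev_prod ht0 _ _ fun l _ => hcm m l, Fintype.prod_prod_type, Complex.ofReal_prod]
    refine Finset.prod_congr rfl fun l _ => ?_
    show _ = ((ev (t : ℝ) (mG (g l) (mkE (fun i => (m : (Fin N × Fin 3) →₀ ℕ) (l, i)) (hdl m m.2 l))) : ℝ) : ℂ)
    rw [mG_mkE, Cv.ev_prod ht0 Finset.univ
      (fun i : Fin 3 => rs (g l) (fJ true 0 i.castSucc) ^ (m : (Fin N × Fin 3) →₀ ℕ) (l, i))
      (fun i _ => (hcv l i).pow ht0 _), Complex.ofReal_prod]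
    refine Finset.prod_congr rfl fun i _ => ?_
    rw [Cv.ev_pow ht0 (hcv l i), Complex.ofReal_pow]
    rfl
  have hrel : ∑ m : P.support, P.coeff m • ev (t : ℝ) (∏ l, mG (g l) (bs m l)) = 0 := by
    have h1 : ((∑ m : P.support, P.coeff m • ev (t : ℝ) (∏ l, mG (g l) (bs m l)) : ℝ) : ℂ) = 0 := by
      rw [← hP0, MvPolynomial.aeval_def, MvPolynomial.eval₂_eq', Complex.ofReal_sum, ← Finset.sum_coe_sort P.support]
      refine Finset.sum_congr rfl fun m _ => ?_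
      rw [hval m, Rat.smul_def, Complex.ofReal_mul, Complex.ofReal_ratCast, eq_ratCast]
    exact_mod_cast h1
  have h2 := (Fintype.linearIndependent_iff.1 hLI2) (fun m => P.coeff m) hrel
  by_contra hP1
  obtain ⟨m, hm'⟩ := MvPolynomial.ne_zero_iff.1 hP1
  exact hm' (h2 ⟨m, MvPolynomial.mem_support_iff.2 hm'⟩)

/-- the exponents -/
noncomputable def Evs (N : ℕ) : ℕ → ℕ := (norel N).choose

theorem Evs_pb (N : ℕ) : PB (Evs N) := (norel N).choose_spec.1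

theorem inp : Pool.Agent.Y916.Om.Inp Evs (fun t : ℕ => t) (fun t g (a : Fin 3) => ((sv t g a : ℝ) : ℂ)) := by
  intro N Δ H t ht g hg hgb P hP hP0
  exact (norel N).choose_spec.2 Δ H t ht g hg hgb P hP hP0

end Pool.Agent.D0H75.JS
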