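import Pool.Agent.D0H75.JS.Win
import Pool.Agent.D0H75.LS.Tup

/-!
# Tuples
-/

set_option autoImplicit false

open Module

namespace Pool.Agent.D0H75.JS

open Pool.Agent.Y916.Hil Pool.Agent.Y916.Om Pool.Agent.R351.GD Pool.Agent.Y113
open Pool.Agent.D0H75.LS (pp pp_pos pp_ne pp_log cov tup_gen loglog16)

open Classical in
/-- **S-units: tuples** -/
theorem main_tuples (k q s : ℕ) : ∃ C : ℕ, ∀ (c₀ : ℂ) (δ : ℕ) (a : Fin s → ℕ), (∀ i, 2 ≤ a i) →
    ∀ (w : Fin q → ℂ) (Y : ℕ), 16 ≤ Y → ∀ Λ : Finset ℚ,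
    (∀ x ∈ Λ, ∃ n m : Fin s → ℕ, x = (pp a n : ℚ) / pp a m ∧ pp a m ≤ Y ∧ pp a n ^ ((δ + 2) ^ C) ≤ pp a m) →
    (((Fintype.piFinset fun _ : Fin k => Λ).filter fun t =>
      RelK δ (cst c₀ a w) (fun p : Fin k × Fin 3 => pz ((t p.1 : ℚ) : ℝ) p.2)).card : ℝ) ≤
      ((δ : ℝ) + 2) ^ C * Real.log (Real.log Y) * (Λ.card : ℝ) ^ (k - 1) := by
  set Q : ℕ := s + q + 1 + k * Fintype.card (Fin 3) with hQ
  obtain ⟨E₀, hE₀p, hE₀⟩ := window 1 Q s
  set E : ℕ → ℕ := fun δ => E₀ ((k + 2) * δ) + 1 with hEdef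
  have hEp : PB E := (hE₀p.comp ((PB.const (k + 2)).mul PB.id)).add (PB.const 1)
  set τ : ℕ := Q + s + 2 with hτ
  set M : ℕ → ℕ := fun δ => (12 * E δ + 1) ^ (2 * s) + 3 * τ * (8 * E δ * (s + 1) + 1) ^ s with hM
  have hMp : PB M := by
    have h1 : PB fun δ => (12 * E δ + 1) ^ (2 * s) := (((PB.const 12).mul hEp).add (PB.const 1)).pow (2 * s)
    have h2 : PB fun δ => (8 * E δ * (s + 1) + 1) ^ s :=
      ((((PB.const 8).mul hEp).mul (PB.const (s + 1))).add (PB.const 1)).pow s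
    exact h1.add ((PB.const (3 * τ)).mul h2)
  obtain ⟨C, hC⟩ := ((PB.const k).mul hMp).add ((PB.const 4).mul (hEp.mul (PB.const (s + 1))))
  refine ⟨C, fun c₀ δ a ha w Y hY Λ hΛ => ?_⟩
  have hCδ : k * M δ + 4 * (E δ * (s + 1)) ≤ (δ + 2) ^ C := hC δ
  have hLL := loglog16 hY
  set LL := Real.log (Real.log Y) with hLLd
  have hE1 : 1 ≤ E δ := Nat.le_add_left _ _
  have h1 := tup_gen (fun x : ℚ => pz ((x : ℚ) : ℝ)) δ Λ.card ⌊(M δ : ℝ) * LL⌋₊ Q ((k + 1) * δ) Λ le_rfl (fun w' => by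
      apply Nat.le_floor
      have h2 := cov s (E δ) τ hE1 a ha Y hY (Λ.filter fun x => BadW δ δ ((k + 1) * δ) w' (pz ((x : ℚ) : ℝ)))
        (fun x hx => by
          obtain ⟨n, m, e1, e2, e3⟩ := hΛ x (Finset.mem_filter.1 hx).1
          refine ⟨n, m, e1, e2, (Nat.pow_le_pow_right (pp_pos ha n) ?_).trans e3⟩
          have h4 : 4 * E δ * (s + 1) = 4 * (E δ * (s + 1)) := by ring
          omega)
        (fun b H hH W hW hWx => by
          obtain ⟨S, hS, hwin⟩ := hE₀ c₀ ((k + 2) * δ) H (pp a b)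
            ((Nat.pow_le_pow_right (by omega) (Nat.le_succ _)).trans hH) a (Fin Q) w' (by rw [Fintype.card_fin])
          choose! g hg using hWx
          have hb0 : (pp a b : ℚ) ≠ 0 := by exact_mod_cast pp_ne ha b
          refine (Finset.card_le_card_of_injOn (fun x => pp a (g x)) (fun x hx => ?_) (fun x hx y hy hxy => ?_)).trans hS
          · by_contra hcon
            obtain ⟨h3, h4⟩ := hg x hx
            have h5 := (Finset.mem_filter.1 (hW hx)).2
            have h6 := badW_relK (δ' := (k + 2) * δ) h5 (Nat.le_mul_of_pos_left δ (by omega))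
              (le_of_eq (by ring))
            refine hwin (fun _ => pp a (g x)) (fun i j _ => Subsingleton.elim i j)
              (fun _ => ⟨pp_pos ha _, h3, hcon, fun j => (g x j : ℚ), ?_⟩) ?_
            · rw [pp_log ha]
              simp
            · have h7 := h6.embed (cst c₀ a w') (fun j => some (Sum.inr j)) (fun _ => rfl)
                (Equiv.uniqueProd (Fin 3) (Fin 1)).symm
              have h8 : (((x : ℚ) : ℝ)) = ((pp a (g x) : ℕ) : ℝ) / ((pp a b : ℕ) : ℝ) := by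
                conv_lhs => rw [h4]
                push_cast
                rfl
              rw [← h8]
              exact h7
          · have e1 := (hg x hx).2
            have e2 := (hg y hy).2
            rw [e1, e2]
            have : pp a (g x) = pp a (g y) := hxy
            rw [this])
      exact h2) k δ (Option (Fin s ⊕ Fin q)) (cst c₀ a w)
    (by rw [Fintype.card_option, Fintype.card_sum, Fintype.card_fin, Fintype.card_fin]) (le_of_eq (by ring))
  have h2 : (((Fintype.piFinset fun _ : Fin k => Λ).filter fun t =>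
      RelK δ (cst c₀ a w) (fun p : Fin k × Fin 3 => pz ((t p.1 : ℚ) : ℝ) p.2)).card : ℝ) ≤
        k * ⌊(M δ : ℝ) * LL⌋₊ * (Λ.card : ℝ) ^ (k - 1) := by
    have h3 : ((Fintype.piFinset fun _ : Fin k => Λ).filter fun t =>
        RelK δ (cst c₀ a w) (fun p : Fin k × Fin 3 => pz ((t p.1 : ℚ) : ℝ) p.2)).card ≤
          k * ⌊(M δ : ℝ) * LL⌋₊ * Λ.card ^ (k - 1) := by
      refine (Finset.card_le_card fun t ht => ?_).trans h1
      obtain ⟨ht1, ht2⟩ := Finset.mem_filter.1 ht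
      exact Finset.mem_filter.2 ⟨ht1, relK_badW ht2⟩
    exact_mod_cast h3
  refine h2.trans (mul_le_mul_of_nonneg_right ?_ (by positivity))
  have h3 : (⌊(M δ : ℝ) * LL⌋₊ : ℝ) ≤ M δ * LL := Nat.floor_le (by positivity)
  have h4 : (k * M δ : ℝ) ≤ ((δ : ℝ) + 2) ^ C := by
    have : k * M δ ≤ (δ + 2) ^ C := by omega
    exact_mod_cast this
  calc (k : ℝ) * (⌊(M δ : ℝ) * LL⌋₊ : ℝ) ≤ k * (M δ * LL) := mul_le_mul_of_nonneg_left h3 (Nat.cast_nonneg _)
    _ = (k * M δ) * LL := by ring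
    _ ≤ _ := mul_le_mul_of_nonneg_right h4 (by linarith)

end Pool.Agent.D0H75.JS
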