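import Pool.Agent.D0H75.JS.Defs
import Pool.Agent.Y239.K.UU

/-!
# The four functions on the interval (after `Y239/K/UU`)
-/

set_option autoImplicit false

namespace Pool.Agent.D0H75.JS.UU

open Filter Topology Set PowerSeries
open Pool.Agent.Y120.K Pool.Agent.Y120.J Pool.Agent.Y113
open Pool.Agent.Y120.GH (sf cx_sf_cv ou_shift ou_ev)
open Pool.Agent.TH21.MS (jj jj_an)
open Pool.Agent.Y37.GF (E SR)
open Pool.Agent.Y239.K.UU

variable {s : Bool} {g : ℕ} {x : ℝ}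

theorem inv_gt (hg : 0 < (g : ℝ) + Js s) (hx : x ∈ Ioo 0 (z1 s g)) : Js s < 1 / x - g := by
  have h2 := Js_nonneg s
  have h3 : x < 1 / ((g : ℝ) + Js s) := hx.2
  rw [lt_div_iff₀ hg] at h3
  have h4 : (g : ℝ) + Js s < 1 / x := by
    rw [lt_div_iff₀ hx.1, mul_comm]
    exact h3
  linarith

theorem vals (hr : T_RAY s) (hc : T_CUR s) (hg : 0 < (g : ℝ) + Js s) (hx : x ∈ Ioo 0 (z1 s g)) :
    Jx s g x ≠ 0 ∧
    -(cur s g x 2 / (tpi * Jx s g x)) =
      ((hd1 s (Yx s g x) / (2 * Real.pi * (1 / x - g)) : ℝ) : ℂ) ∧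
    0 < hd1 s (Yx s g x) / (2 * Real.pi * (1 / x - g)) ∧
    cur s g x 3 / (tpi ^ 2 * Jx s g x) =
      ((hd2 s (Yx s g x) / (4 * Real.pi ^ 2 * (1 / x - g)) : ℝ) : ℂ) := by
  obtain ⟨h1, h2, -⟩ := (hc g hg).1 x hx
  have h3 : 0 < 1 / x - g := (Js_nonneg s).trans_lt (inv_gt hg hx)
  have h3c : ((1 / x - g : ℝ) : ℂ) ≠ 0 := by exact_mod_cast h3.ne'
  have hsi := si_ne s
  have hpi : (Real.pi : ℂ) ≠ 0 := by exact_mod_cast Real.pi_ne_zero
  have hI := Complex.I_ne_zero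
  have hc2 : cur s g x 2 = deriv jj (ry s (Yx s g x)) := rfl
  have hc3 : cur s g x 3 = deriv (deriv jj) (ry s (Yx s g x)) := rfl
  refine ⟨mul_ne_zero hsi h3c, ?_, ?_, ?_⟩
  · rw [hc2, d1 hr h1]
    unfold Jx tpi
    generalize (1 / x - g : ℝ) = w at h3 h3c
    push_cast
    field_simp
  · have := hd1_pos hr h1
    have := Real.pi_pos
    positivity
  · rw [hc3, d2 hr h1]
    unfold Jx tpi
    generalize (1 / x - g : ℝ) = w at h3 h3c
    push_cast
    field_simp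
    rw [Complex.I_sq]
    ring

theorem Fv_sq (hr : T_RAY s) (hc : T_CUR s) (hg : 0 < (g : ℝ) + Js s) (hx : x ∈ Ioo 0 (z1 s g)) :
    0 < Fv s g x ∧ ((Fv s g x : ℝ) : ℂ) ^ 2 = -(cur s g x 2 / (tpi * Jx s g x)) := by
  obtain ⟨-, h2, h3, -⟩ := vals hr hc hg hx
  have h4 : (-(cur s g x 2) / (tpi * Jx s g x)).re =
      hd1 s (Yx s g x) / (2 * Real.pi * (1 / x - g)) := by
    rw [neg_div, h2, Complex.ofReal_re]
  have h5 : Fv s g x = √ (hd1 s (Yx s g x) / (2 * Real.pi * (1 / x - g))) := by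
    unfold Fv
    rw [h4]
  refine ⟨by rw [h5]; exact Real.sqrt_pos.2 h3, ?_⟩
  rw [h2, h5, ← Complex.ofReal_pow, Real.sq_sqrt h3.le]

theorem an_comp (hc : T_CUR s) (hg : 0 < (g : ℝ) + Js s) (hx : x ∈ Ioo 0 (z1 s g)) {F : ℂ → ℂ}
    (hF : AnalyticAt ℂ F (ry s (Yx s g x))) : AnalyticAt ℝ (fun x => F (ry s (Yx s g x))) x := by
  obtain ⟨-, -, h3⟩ := (hc g hg).1 x hx
  have h4 : AnalyticAt ℝ (fun x => ry s (Yx s g x)) x := (an_ry (Yx s g x)).comp h3
  exact AnalyticAt.fun_comp (g := F) (f := fun x => ry s (Yx s g x))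
    (hF.restrictScalars (𝕜 := ℝ)) h4

theorem an_uu (hr : T_RAY s) (hc : T_CUR s) (hg : 0 < (g : ℝ) + Js s) (hx : x ∈ Ioo 0 (z1 s g)) (i : Fin 4) :
    AnalyticAt ℝ (fun x => uu s g x i) x := by
  obtain ⟨h1, h2, h3⟩ := (hc g hg).1 x hx
  have hy0 : 0 < Yx s g x := (Ys_pos s).trans h1
  obtain ⟨v1, v2, v3, v4⟩ := vals hr hc hg hx
  have hx0 := hx.1.ne'
  have hJ : AnalyticAt ℝ (fun x : ℝ => Jx s g x) x := by
    unfold Jx
    apply analyticAt_const.mul
    apply an_ofReal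
    exact (analyticAt_const.div analyticAt_id hx0).sub analyticAt_const
  have hc2 : AnalyticAt ℝ (fun x => cur s g x 2) x := an_comp hc hg hx (jj_anr s hy0).deriv
  have hc3 : AnalyticAt ℝ (fun x => cur s g x 3) x := an_comp hc hg hx (jj_anr s hy0).deriv.deriv
  have ht := tpi_ne
  have hF : AnalyticAt ℝ (fun x => Fv s g x) x := by
    unfold Fv
    apply an_sqrt
    · exact an_re (hc2.neg.div (analyticAt_const.mul hJ) (mul_ne_zero ht v1))
    · rw [neg_div, v2, Complex.ofReal_re]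
      exact v3
  have hF0 : Fv s g x ≠ 0 := (Fv_sq hr hc hg hx).1.ne'
  have hF1 : AnalyticAt ℝ (fun x => F1v s g x) x := by
    unfold F1v
    refine ((hF.pow 4).sub (an_re (hc3.div (analyticAt_const.mul hJ)
      (mul_ne_zero (pow_ne_zero _ ht) v1)))).div (analyticAt_const.mul (hF.pow 3)) ?_
    have : (2 : ℝ) * Fv s g x ^ 3 ≠ 0 := by positivity
    exact this
  have hG : AnalyticAt ℝ (fun x => Gv s g x) x := by
    unfold Gv
    refine (AnalyticAt.sub ?_ (analyticAt_const.mul h3)).mul hF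
    apply AnalyticAt.log
    · exact analyticAt_const.div analyticAt_id hx0
    · exact one_div_pos.2 hx.1
  fin_cases i
  · exact hF
  · exact hF1
  · exact hG.neg
  · exact ((analyticAt_const.add (hF1.mul hG)).div hF hF0).neg

end Pool.Agent.D0H75.JS.UU
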