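import Pool.Agent.D0H75.JS.Nr

/-!
# Windows of multiples: the period functions at `g / t`
-/

set_option autoImplicit false

open Module

namespace Pool.Agent.D0H75.JS

open Pool.Agent.Y113 Pool.Agent.R351.GD
open Pool.Agent.Y120.J (tpi)
open Pool.Agent.Y120.K (fJ)
open Pool.Agent.Y37.GF (E)
open Pool.Agent.D0H75.LS (rs E_rs)

/-- `F`, `θF` and `2 π i z F` at `x = 1 / j(z)` -/
noncomputable def pz (x : ℝ) : Fin 3 → ℂ :=
  ![(E (fJ true 0 0) x : ℂ), (E (fJ true 0 1) x : ℂ), -(E (fJ true 0 2) x : ℂ) - ((Real.log (1 / x) : ℝ) : ℂ) * (E (fJ true 0 0) x : ℂ)]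

/-- the constants `c`, `log a_i`, `w_j` -/
noncomputable def cst {s : ℕ} {υ : Type} (c : ℂ) (a : Fin s → ℕ) (w : υ → ℂ) (o : Option (Fin s ⊕ υ)) : ℂ :=
  o.elim c (Sum.elim (fun i => ((Real.log (a i) : ℝ) : ℂ)) w)

/-- the substitution over `K` -/
noncomputable def sb {s : ℕ} {υ : Type} (K : IntermediateField ℚ ℂ) (r : ℕ) (c : Fin r → Fin s → ℚ) :
    Option (Fin s ⊕ υ) ⊕ Fin r × Fin 3 → MvPolynomial ((Option (Fin s ⊕ υ) ⊕ Unit) ⊕ Fin r × Fin 3) K :=
  Sum.elim (fun o => MvPolynomial.X (Sum.inl (Sum.inl o))) fun p =>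
    ![MvPolynomial.X (Sum.inr (p.1, 0)), MvPolynomial.X (Sum.inr (p.1, 1)),
      -MvPolynomial.X (Sum.inr (p.1, 2)) -
        (MvPolynomial.X (Sum.inl (Sum.inr ())) -
          ∑ j, MvPolynomial.C ((c p.1 j : ℚ) : K) * MvPolynomial.X (Sum.inl (Sum.inl (some (Sum.inl j))))) *
          MvPolynomial.X (Sum.inr (p.1, 0))] p.2

theorem sb_deg {s : ℕ} {υ : Type} (K : IntermediateField ℚ ℂ) (r : ℕ) (c : Fin r → Fin s → ℚ)
    (i : Option (Fin s ⊕ υ) ⊕ Fin r × Fin 3) : (sb (υ := υ) K r c i).totalDegree ≤ 2 := by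
  have hX : ∀ u : (Option (Fin s ⊕ υ) ⊕ Unit) ⊕ Fin r × Fin 3,
      (MvPolynomial.X u : MvPolynomial ((Option (Fin s ⊕ υ) ⊕ Unit) ⊕ Fin r × Fin 3) K).totalDegree ≤ 1 := by
    intro u
    rw [MvPolynomial.totalDegree_X]
  rcases i with o | ⟨i, a⟩
  · exact (hX _).trans (by omega)
  · fin_cases a
    · exact (hX _).trans (by omega)
    · exact (hX _).trans (by omega)
    · refine (MvPolynomial.totalDegree_sub _ _).trans (max_le ?_ ?_)
      · rw [MvPolynomial.totalDegree_neg]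
        exact (hX _).trans (by omega)
      refine (MvPolynomial.totalDegree_mul _ _).trans (add_le_add (?_ : _ ≤ 1) (hX _))
      refine (MvPolynomial.totalDegree_sub _ _).trans (max_le (hX _) ?_)
      refine MvPolynomial.totalDegree_finsetSum_le fun j _ => ?_
      refine (MvPolynomial.totalDegree_mul _ _).trans ?_
      rw [MvPolynomial.totalDegree_C, zero_add]
      exact hX _

/-- the linear substitution -/
noncomputable def LL {r : ℕ} {R : Type} [CommRing R] [Algebra ℂ R] (γ : Fin r → ℂ) (z : Fin r × Fin 3 → R)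
    (p : Fin r × Fin 3) : R :=
  ![z (p.1, 0), z (p.1, 1), -z (p.1, 2) - algebraMap ℂ R (γ p.1) * z (p.1, 0)] p.2

/-- the substitution is injective -/
theorem LL_inj {r : ℕ} (γ : Fin r → ℂ) : Function.Injective
    (MvPolynomial.aeval (R := ℂ) (LL γ (MvPolynomial.X : Fin r × Fin 3 → MvPolynomial (Fin r × Fin 3) ℂ))) := by
  set L' : Fin r × Fin 3 → MvPolynomial (Fin r × Fin 3) ℂ := LL γ MvPolynomial.X with hL'
  have h : (MvPolynomial.aeval L').comp
      (MvPolynomial.aeval (R := ℂ) (LL γ (MvPolynomial.X : Fin r × Fin 3 → MvPolynomial (Fin r × Fin 3) ℂ))) =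
      AlgHom.id ℂ _ := by
    refine MvPolynomial.algHom_ext fun i => ?_
    obtain ⟨i, a⟩ := i
    rw [AlgHom.comp_apply, MvPolynomial.aeval_X, AlgHom.id_apply]
    fin_cases a
    · show MvPolynomial.aeval L' (MvPolynomial.X (i, 0)) = MvPolynomial.X (i, 0)
      rw [MvPolynomial.aeval_X]
      rfl
    · show MvPolynomial.aeval L' (MvPolynomial.X (i, 1)) = MvPolynomial.X (i, 1)
      rw [MvPolynomial.aeval_X]
      rfl
    · show MvPolynomial.aeval L' (-MvPolynomial.X (i, 2) - MvPolynomial.C (γ i) * MvPolynomial.X (i, 0)) =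
        MvPolynomial.X (i, 2)
      rw [map_sub, map_neg, map_mul, MvPolynomial.aeval_X, MvPolynomial.aeval_X, MvPolynomial.aeval_C]
      show -(-MvPolynomial.X (i, 2) - MvPolynomial.C (γ i) * MvPolynomial.X (i, 0)) -
        MvPolynomial.C (γ i) * MvPolynomial.X (i, 0) = _
      ring
  intro P Q hPQ
  have h1 := DFunLike.congr_fun h P
  have h2 := DFunLike.congr_fun h Q
  rw [AlgHom.comp_apply, AlgHom.id_apply] at h1 h2
  rw [← h1, ← h2, hPQ]

/-- the values at `g / t` -/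
theorem pz_val {g t : ℕ} (hg : 1 ≤ g) (ht : 1 ≤ t) : pz ((g : ℝ) / t) = ![((sv t g 0 : ℝ) : ℂ), ((sv t g 1 : ℝ) : ℂ),
    -((sv t g 2 : ℝ) : ℂ) - ((Real.log t - Real.log g : ℝ) : ℂ) * ((sv t g 0 : ℝ) : ℂ)] := by
  have hg0 : (0 : ℝ) < g := by exact_mod_cast hg
  have ht0 : (0 : ℝ) < t := by exact_mod_cast ht
  have hE : ∀ f : PowerSeries ℚ, E f ((g : ℝ) / t) = ev t (rs g f) := by
    intro f
    rw [Pool.Agent.Y37.GF.ev_eq, E_rs, mul_one_div]
  have hl : Real.log (1 / ((g : ℝ) / t)) = Real.log t - Real.log g := by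
    rw [one_div_div, Real.log_div ht0.ne' hg0.ne']
  unfold pz sv
  rw [hE, hE, hE, hl]
  rfl

/-- **Windows of multiples** -/
theorem window (r q s : ℕ) : ∃ E : ℕ → ℕ, PB E ∧ ∀ (c₀ : ℂ) (δ H t : ℕ), (H + 2) ^ E δ ≤ t → ∀ a : Fin s → ℕ,
    ∀ (υ : Type) [Fintype υ] (w : υ → ℂ), Fintype.card υ = q →
    ∃ S : Finset ℕ, S.card ≤ q + s + 2 ∧ ∀ g : Fin r → ℕ, Function.Injective g →
      (∀ i, 1 ≤ g i ∧ g i ≤ H ∧ g i ∉ S ∧ ∃ n : Fin s → ℚ, Real.log (g i) = ∑ j, (n j : ℝ) * Real.log (a j)) →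
      ¬ RelK δ (cst c₀ a w) (fun p : Fin r × Fin 3 => pz ((g p.1 : ℝ) / t) p.2) := by
  classical
  obtain ⟨E₂, hE₂p, hE₂⟩ := awh_exp Evs Evs_pb (σ := Fin 3) r (q + s + 2) 1 1
  refine ⟨fun δ => 4 + E₂ (2 * δ), (PB.const 4).add (hE₂p.comp ((PB.const 2).mul PB.id)),
    fun c₀ δ H t ht a υ _ w hw => ?_⟩
  have hbig : ∀ e ≤ 4 + E₂ (2 * δ), (H + 2) ^ e ≤ t := fun e he => (Nat.pow_le_pow_right (by omega) he).trans ht
  have ht1 : 1 ≤ t := by
    have := hbig 0 (Nat.zero_le _)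
    simpa using this
  set γ : ℝ := Real.log t with hγ
  set v : Option (Fin s ⊕ υ) ⊕ Unit → ℂ := Sum.elim (cst c₀ a w) (fun _ => (γ : ℂ)) with hv
  have hvc : (Finset.univ : Finset (Option (Fin s ⊕ υ) ⊕ Unit)).card = q + s + 2 := by
    rw [Finset.card_univ, Fintype.card_sum, Fintype.card_option, Fintype.card_sum, Fintype.card_unit, Fintype.card_fin,
      hw]
    ring
  obtain ⟨S, hS, hwin⟩ := hE₂ (2 * δ) ℂ ℕ (fun t => t) (fun t g (a : Fin 3) => ((sv t g a : ℝ) : ℂ)) inp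
    H t (hbig _ (by omega)) _ v Finset.univ hvc (Pool.Agent.Y916.Om.Dom.univ v)
  refine ⟨S, hS, fun g hg hgb hrel => ?_⟩
  obtain ⟨K, hK, hKd, P, hP, hP0, hne⟩ := hrel
  choose c hc using fun i => (hgb i).2.2.2
  set Q : MvPolynomial ((Option (Fin s ⊕ υ) ⊕ Unit) ⊕ Fin r × Fin 3) K := MvPolynomial.aeval (sb K r c) P with hQ
  have hQd : Q.totalDegree ≤ 2 * δ := aeval_deg2 _ (sb_deg K r c) P hP
  set Γ : Fin r → ℂ := fun i => (γ : ℂ) - ((Real.log (g i) : ℝ) : ℂ) with hΓ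
  have hΓv : ∀ (R : Type) [CommRing R] [Algebra ℂ R] (i : Fin r),
      algebraMap ℂ R (Γ i) = algebraMap ℂ R (v (Sum.inr ())) -
        ∑ j, (algebraMap K R) ((c i j : ℚ) : K) * algebraMap ℂ R (v (Sum.inl (some (Sum.inl j)))) := by
    intro R _ _ i
    have h2 : ∀ x : ℚ, (algebraMap K R) (x : K) = algebraMap ℂ R (x : ℂ) := by
      intro x
      rw [IsScalarTower.algebraMap_apply K ℂ R, map_ratCast (algebraMap K ℂ) x]
    simp only [h2, ← map_mul, ← map_sum, ← map_sub]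
    congr 1
    have h3 : Real.log (g i) = ∑ j, (c i j : ℝ) * Real.log (a j) := hc i
    show (γ : ℂ) - ((Real.log (g i) : ℝ) : ℂ) = (γ : ℂ) - _
    congr 1
    rw [h3, Complex.ofReal_sum]
    refine Finset.sum_congr rfl fun j _ => ?_
    rw [Complex.ofReal_mul, Complex.ofReal_ratCast]
    rfl
  have hQv : ∀ (R : Type) [CommRing R] [Algebra ℂ R] (z : Fin r × Fin 3 → R),
      MvPolynomial.aeval (Sum.elim (fun j => algebraMap ℂ R (v j)) z) Q =
      MvPolynomial.aeval (Sum.elim (fun o : Option (Fin s ⊕ υ) => algebraMap ℂ R (cst c₀ a w o)) (LL Γ z)) P := by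
    intro R _ _ z
    rw [hQ, MvPolynomial.comp_aeval_apply]
    congr 1
    congr 1
    funext i
    rcases i with o | ⟨i, b⟩
    · show MvPolynomial.aeval _ (MvPolynomial.X _) = _
      rw [MvPolynomial.aeval_X]
      rfl
    · fin_cases b
      · show MvPolynomial.aeval _ (MvPolynomial.X _) = _
        rw [MvPolynomial.aeval_X]
        rfl
      · show MvPolynomial.aeval _ (MvPolynomial.X _) = _
        rw [MvPolynomial.aeval_X]
        rfl
      · show MvPolynomial.aeval _ (-MvPolynomial.X _ - (MvPolynomial.X _ -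
          ∑ j, MvPolynomial.C ((c i j : ℚ) : K) * MvPolynomial.X (Sum.inl (Sum.inl (some (Sum.inl j))))) *
            MvPolynomial.X _) = -z (i, 2) - algebraMap ℂ R (Γ i) * z (i, 0)
        rw [hΓv R i, map_sub, map_neg, map_mul, map_sub, map_sum, MvPolynomial.aeval_X, MvPolynomial.aeval_X,
          MvPolynomial.aeval_X]
        simp only [map_mul, MvPolynomial.aeval_X, MvPolynomial.aeval_C]
        rfl
  have hx : LL Γ (fun p : Fin r × Fin 3 => ((sv t (g p.1) p.2 : ℝ) : ℂ)) =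
      fun p : Fin r × Fin 3 => pz ((g p.1 : ℝ) / t) p.2 := by
    funext ⟨i, b⟩
    have h1 := pz_val (hgb i).1 ht1
    show _ = pz ((g i : ℝ) / t) b
    rw [h1]
    fin_cases b
    · rfl
    · rfl
    · show -((sv t (g i) 2 : ℝ) : ℂ) - ((γ : ℂ) - ((Real.log (g i) : ℝ) : ℂ)) * ((sv t (g i) 0 : ℝ) : ℂ) =
        -((sv t (g i) 2 : ℝ) : ℂ) - ((Real.log t - Real.log (g i) : ℝ) : ℂ) * ((sv t (g i) 0 : ℝ) : ℂ)
      rw [Complex.ofReal_sub]
  have hQ0 : MvPolynomial.aeval (Sum.elim v fun p : Fin r × Fin 3 => ((sv t (g p.1) p.2 : ℝ) : ℂ)) Q = 0 := by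
    have h1 := hQv ℂ fun p : Fin r × Fin 3 => ((sv t (g p.1) p.2 : ℝ) : ℂ)
    rw [hx] at h1
    exact h1.trans hP0
  have h5 := hwin g hg (fun i => ⟨(hgb i).1, (hgb i).2.1, (hgb i).2.2.1⟩) K hK (hKd.trans (by omega))
    (fun p => ((sv t (g p.1) p.2 : ℝ) : ℂ)) (fun p => ⟨1, one_ne_zero, by simp⟩) Q hQd hQ0
  apply hne
  have h6 := hQv (MvPolynomial (Fin r × Fin 3) ℂ) MvPolynomial.X
  have h7 : (fun j => algebraMap ℂ (MvPolynomial (Fin r × Fin 3) ℂ) (v j)) = fun j => MvPolynomial.C (v j) := rfl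
  rw [h7, h5] at h6
  -- the substitution is injective
  apply LL_inj Γ
  rw [map_zero]
  have h9 : ((MvPolynomial.aeval (R := ℂ) (LL Γ (MvPolynomial.X : Fin r × Fin 3 → MvPolynomial (Fin r × Fin 3) ℂ)) :
        MvPolynomial (Fin r × Fin 3) ℂ →ₐ[ℂ] _).restrictScalars K).comp
      (MvPolynomial.aeval (Sum.elim (fun o : Option (Fin s ⊕ υ) =>
        (MvPolynomial.C (cst c₀ a w o) : MvPolynomial (Fin r × Fin 3) ℂ)) MvPolynomial.X)) =
      (MvPolynomial.aeval (Sum.elim (fun o : Option (Fin s ⊕ υ) =>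
        algebraMap ℂ (MvPolynomial (Fin r × Fin 3) ℂ) (cst c₀ a w o)) (LL Γ MvPolynomial.X)) :
          MvPolynomial (Option (Fin s ⊕ υ) ⊕ Fin r × Fin 3) K →ₐ[K] _) := by
    refine MvPolynomial.algHom_ext fun i => ?_
    rw [AlgHom.comp_apply, MvPolynomial.aeval_X, MvPolynomial.aeval_X]
    rcases i with o | ⟨i, b⟩
    · show MvPolynomial.aeval _ (MvPolynomial.C _) = _
      rw [MvPolynomial.aeval_C]
      rfl
    · show MvPolynomial.aeval _ (MvPolynomial.X (i, b)) = _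
      rw [MvPolynomial.aeval_X]
      rfl
  have h10 := DFunLike.congr_fun h9 P
  rw [AlgHom.comp_apply] at h10
  exact h10.trans h6.symm

end Pool.Agent.D0H75.JS
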